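import Pool.Agent.Helper86.ZDomInst

/-!
The encoding of instances is injective.
-/

set_option autoImplicit false

namespace Pool.Agent.Helper86.ZDom

open Computability

theorem adjBits_length {n : ℕ} (G : SimpleGraph (Fin n)) : (adjBits G).length = n * n := by
  unfold adjBits
  rw [List.length_flatten, List.map_ofFn]
  simp [Function.comp_def]

theorem adjBits_injective {n : ℕ} {G G' : SimpleGraph (Fin n)} (h : adjBits G = adjBits G') :
    G = G' := by
  classical
  unfold adjBits at h
  have h2 := List.eq_iff_flatten_eq.mpr ⟨h, by
    rw [List.map_ofFn, List.map_ofFn]
    congr 1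
    funext i
    simp⟩
  have h3 := List.ofFn_injective h2
  ext i j
  have h4 := congrFun (List.ofFn_injective (congrFun h3 i)) j
  simpa using h4

theorem replicate_true_inj {n n' : ℕ} {l l' : List Bool}
    (h : List.replicate n true ++ false :: l = List.replicate n' true ++ false :: l') :
    n = n' ∧ l = l' := by
  induction n generalizing n' with
  | zero =>
    cases n' with
    | zero => exact ⟨rfl, by simpa using h⟩
    | succ n' => simp [List.replicate_succ] at h
  | succ n ih =>
    cases n' with
    | zero => simp [List.replicate_succ] at h
    | succ n' =>
      rw [List.replicate_succ, List.replicate_succ, List.cons_append, List.cons_append] at h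
      obtain ⟨h1, h2⟩ := ih (List.cons.inj h).2
      exact ⟨by rw [h1], h2⟩

theorem intBits_injective : Function.Injective intBits := by
  intro k k' h
  unfold intBits at h
  obtain ⟨h1, h2⟩ := List.cons.inj h
  have h3 : k.natAbs = k'.natAbs := by
    have := congrArg decodeNat h2
    rwa [decode_encodeNat, decode_encodeNat] at this
  rw [decide_eq_decide] at h1
  omega

theorem instBits_injective : Function.Injective instBits := by
  rintro ⟨n, G, k⟩ ⟨n', G', k'⟩ h
  unfold instBits at h
  obtain ⟨h1, h2⟩ := replicate_true_inj h
  simp only at h1
  subst h1
  obtain ⟨h3, h4⟩ := List.append_inj h2 (by rw [adjBits_length, adjBits_length])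
  simp only at h3 h4
  rw [adjBits_injective h3, intBits_injective h4]

end Pool.Agent.Helper86.ZDom
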