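import Pool.Agent.Helper86.GreedyDef

/-!
Greedy representations in numerical semigroups: basic lemmas.
-/

set_option autoImplicit false

namespace Pool.Agent.Helper86.Greedy

/-- The cost of the greedy procedure run through a list of coins, starting from `k`. -/
noncomputable def greedyRun (S : Finset ℕ) : List ℕ → ℕ → ℕ
  | [], _ => 0
  | s :: l, k => maxMult S s k + greedyRun S l (k - maxMult S s k * s)

theorem foldl_eq_greedyRun (S : Finset ℕ) (l : List ℕ) (k c : ℕ) :
    (l.foldl (fun p s => (p.1 - maxMult S s p.1 * s, p.2 + maxMult S s p.1)) (k, c)).2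
      = c + greedyRun S l k := by
  induction l generalizing k c with
  | nil => simp [greedyRun]
  | cons s l ih =>
    rw [List.foldl_cons, ih, greedyRun]
    ring

theorem greedyCost_eq (S : Finset ℕ) (k : ℕ) :
    greedyCost S k = greedyRun S (S.sort (· ≥ ·)) k := by
  unfold greedyCost
  rw [foldl_eq_greedyRun, zero_add]

/-! ### Representations -/

/-- `k` has a representation of cost `c`. -/
def HasRep (S : Finset ℕ) (k c : ℕ) : Prop :=
  ∃ a : ℕ → ℕ, ∑ s ∈ S, a s * s = k ∧ ∑ s ∈ S, a s = c

theorem hasRep_zero (S : Finset ℕ) : HasRep S 0 0 := ⟨0, by simp, by simp⟩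

theorem HasRep.add {S : Finset ℕ} {k c s : ℕ} (h : HasRep S k c) (hs : s ∈ S) :
    HasRep S (k + s) (c + 1) := by
  obtain ⟨a, ha, hc⟩ := h
  refine ⟨fun x => a x + if x = s then 1 else 0, ?_, ?_⟩
  · simp [add_mul, Finset.sum_add_distrib, ha, hs]
  · simp [Finset.sum_add_distrib, hc, hs]

theorem HasRep.exists_sub {S : Finset ℕ} {k c : ℕ} (h : HasRep S k (c + 1)) :
    ∃ s ∈ S, ∃ k', k = k' + s ∧ HasRep S k' c := by
  obtain ⟨a, ha, hc⟩ := h
  have : ∃ s ∈ S, 1 ≤ a s := by
    by_contra hne
    push Not at hne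
    have : ∑ s ∈ S, a s = 0 := Finset.sum_eq_zero (fun s hs => by have := hne s hs; omega)
    omega
  obtain ⟨s, hs, h1⟩ := this
  have e : ∀ x, a x = (a x - if x = s then 1 else 0) + if x = s then 1 else 0 := by
    intro x
    by_cases hx : x = s
    · subst hx; simp; omega
    · simp [hx]
  have hk : ∑ x ∈ S, a x * x = (∑ x ∈ S, (a x - if x = s then 1 else 0) * x) + s := by
    have : ∀ x ∈ S, a x * x
        = (a x - if x = s then 1 else 0) * x + (if x = s then 1 else 0) * x := by
      intro x _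
      rw [← add_mul, ← e x]
    rw [Finset.sum_congr rfl this, Finset.sum_add_distrib]
    simp [hs]
  have hc' : ∑ x ∈ S, a x = (∑ x ∈ S, (a x - if x = s then 1 else 0)) + 1 := by
    have : ∀ x ∈ S, a x
        = (a x - if x = s then 1 else 0) + (if x = s then 1 else 0) := by
      intro x _
      exact e x
    rw [Finset.sum_congr rfl this, Finset.sum_add_distrib]
    simp [hs]
  refine ⟨s, hs, ∑ x ∈ S, (a x - if x = s then 1 else 0) * x, ?_,
    fun x => a x - if x = s then 1 else 0, rfl, ?_⟩
  · rw [← hk, ha]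
  · show ∑ x ∈ S, (a x - if x = s then 1 else 0) = c
    omega

theorem HasRep.eq_zero {S : Finset ℕ} {k : ℕ} (h : HasRep S k 0) : k = 0 := by
  obtain ⟨a, ha, hc⟩ := h
  rw [← ha]
  refine Finset.sum_eq_zero (fun s hs => ?_)
  have := (Finset.sum_eq_zero_iff.mp hc) s hs
  simp [this]

theorem HasRep.trans {S : Finset ℕ} {k k' c c' : ℕ} (h : HasRep S k c) (h' : HasRep S k' c') :
    HasRep S (k + k') (c + c') := by
  obtain ⟨a, ha, hc⟩ := h
  obtain ⟨a', ha', hc'⟩ := h'
  exact ⟨fun x => a x + a' x, by simp [add_mul, Finset.sum_add_distrib, ha, ha'],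
    by simp [Finset.sum_add_distrib, hc, hc']⟩

theorem HasRep.nsmul {S : Finset ℕ} {s : ℕ} (hs : s ∈ S) (j : ℕ) : HasRep S (j * s) j := by
  induction j with
  | zero => simpa using hasRep_zero S
  | succ j ih =>
    have := ih.add hs
    rwa [show j * s + s = (j + 1) * s by ring] at this

theorem mem_closure_iff {S : Finset ℕ} {k : ℕ} :
    k ∈ AddSubmonoid.closure (S : Set ℕ) ↔ ∃ c, HasRep S k c := by
  constructor
  · intro h
    induction h using AddSubmonoid.closure_induction with
    | mem x hx =>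
      refine ⟨1, ?_⟩
      have := (hasRep_zero S).add (Finset.mem_coe.mp hx)
      simpa using this
    | zero => exact ⟨0, hasRep_zero S⟩
    | add x y _ _ hx hy =>
      obtain ⟨c, hc⟩ := hx
      obtain ⟨c', hc'⟩ := hy
      exact ⟨c + c', hc.trans hc'⟩
  · rintro ⟨c, a, rfl, -⟩
    refine AddSubmonoid.sum_mem _ (fun s hs => ?_)
    have := AddSubmonoid.nsmul_mem (AddSubmonoid.closure (S : Set ℕ))
      (AddSubmonoid.subset_closure (Finset.mem_coe.mpr hs)) (a s)
    simpa using this

theorem sub_mem_of_hasRep {S : Finset ℕ} {k c : ℕ} (hk : 0 < k) (h : HasRep S k c) :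
    ∃ s ∈ S, s ≤ k ∧ k - s ∈ AddSubmonoid.closure (S : Set ℕ) := by
  cases c with
  | zero => exact absurd h.eq_zero hk.ne'
  | succ c =>
    obtain ⟨s, hs, k', rfl, hk'⟩ := h.exists_sub
    exact ⟨s, hs, Nat.le_add_left _ _, mem_closure_iff.mpr ⟨c, by simpa using hk'⟩⟩

/-! ### The greedy step -/

/-- `s` may be subtracted from `k`. -/
def CanSub (S : Finset ℕ) (k s : ℕ) : Prop :=
  s ≤ k ∧ k - s ∈ AddSubmonoid.closure (S : Set ℕ)

theorem maxMult_eq_zero {S : Finset ℕ} {h k : ℕ} (hS : h ∈ S) (hk : ¬ CanSub S k h) :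
    maxMult S h k = 0 := by
  classical
  unfold maxMult
  rw [Nat.findGreatest_eq_zero_iff]
  rintro n hn _ ⟨h1, h2⟩
  apply hk
  obtain ⟨n, rfl⟩ : ∃ m, n = m + 1 := ⟨n - 1, by omega⟩
  have e : (n + 1) * h = n * h + h := by ring
  refine ⟨by rw [e] at h1; omega, ?_⟩
  have : k - h = (k - (n + 1) * h) + n * h := by rw [e] at h1 ⊢; omega
  rw [this]
  refine AddSubmonoid.add_mem _ h2 ?_
  have := AddSubmonoid.nsmul_mem (AddSubmonoid.closure (S : Set ℕ))
      (AddSubmonoid.subset_closure (Finset.mem_coe.mpr hS)) n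
  simpa using this

theorem maxMult_succ {S : Finset ℕ} {s k : ℕ} (hs : 0 < s) (hk : CanSub S k s) :
    maxMult S s k = maxMult S s (k - s) + 1 := by
  classical
  have h0 : Nat.findGreatest
      (fun q => q * s ≤ k - s ∧ k - s - q * s ∈ AddSubmonoid.closure (S : Set ℕ)) (k - s)
      = maxMult S s (k - s) := by
    unfold maxMult; congr
  have hq := (Nat.findGreatest_eq_iff.mp h0)
  set q := maxMult S s (k - s) with hqdef
  obtain ⟨hq1, hq2, hq3⟩ := hq
  have hP : q * s ≤ k - s ∧ k - s - q * s ∈ AddSubmonoid.closure (S : Set ℕ) := by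
    by_cases hq0 : q = 0
    · rw [hq0]; simpa using hk.2
    · exact hq2 hq0
  have hks := hk.1
  have : Nat.findGreatest
      (fun q => q * s ≤ k ∧ k - q * s ∈ AddSubmonoid.closure (S : Set ℕ)) k = q + 1 := by
    rw [Nat.findGreatest_eq_iff]
    have e : (q + 1) * s = q * s + s := by ring
    refine ⟨?_, ?_, ?_⟩
    · omega
    · intro _
      rw [e]
      refine ⟨by omega, ?_⟩
      have : k - (q * s + s) = k - s - q * s := by omega
      rw [this]; exact hP.2
    · rintro n hn hnk ⟨h1, h2⟩
      obtain ⟨n, rfl⟩ : ∃ m, n = m + 1 := ⟨n - 1, by omega⟩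
      have e' : (n + 1) * s = n * s + s := by ring
      rw [e'] at h1 h2
      refine hq3 (show q < n by omega) ?_ ⟨by omega, ?_⟩
      · have : n ≤ n * s := Nat.le_mul_of_pos_right n hs
        omega
      · have : k - s - n * s = k - (n * s + s) := by omega
        rw [this]; exact h2
  have h1 : Nat.findGreatest
      (fun q => q * s ≤ k ∧ k - q * s ∈ AddSubmonoid.closure (S : Set ℕ)) k
      = maxMult S s k := by
    unfold maxMult; congr
  rw [← h1, this]

theorem greedyRun_step {S : Finset ℕ} (hpos : ∀ s ∈ S, 0 < s) {s k : ℕ} (hk : CanSub S k s) :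
    ∀ l : List ℕ, (∀ x ∈ l, x ∈ S) → l.Pairwise (· ≥ ·) → s ∈ l →
      (∀ x ∈ l, s < x → ¬ CanSub S k x) → greedyRun S l k = 1 + greedyRun S l (k - s) := by
  intro l
  induction l with
  | nil => intro _ _ h; simp at h
  | cons h l ih =>
    intro hS hl hsl hmax
    have hhS : h ∈ S := hS h (by simp)
    by_cases hh : h = s
    · subst hh
      have e := maxMult_succ (hpos h hhS) hk
      simp only [greedyRun]
      rw [e]
      have : k - (maxMult S h (k - h) + 1) * h = k - h - maxMult S h (k - h) * h := by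
        have : (maxMult S h (k - h) + 1) * h = h + maxMult S h (k - h) * h := by ring
        rw [this, Nat.sub_add_eq]
      rw [this]; ring
    · have hsl' : s ∈ l := by
        rcases List.mem_cons.mp hsl with h' | h'
        · exact absurd h'.symm hh
        · exact h'
      have hge : h ≥ s := (List.pairwise_cons.mp hl).1 s hsl'
      have hgt : s < h := lt_of_le_of_ne hge (Ne.symm hh)
      have hn : ¬ CanSub S k h := hmax h (by simp) hgt
      have hn' : ¬ CanSub S (k - s) h := by
        rintro ⟨h1, h2⟩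
        apply hn
        have hks := hk.1
        refine ⟨by omega, ?_⟩
        have : k - h = (k - s - h) + s := by omega
        rw [this]
        refine AddSubmonoid.add_mem _ h2 ?_
        exact AddSubmonoid.subset_closure (Finset.mem_coe.mpr (hS s hsl))
      simp only [greedyRun]
      rw [maxMult_eq_zero hhS hn, maxMult_eq_zero hhS hn']
      have := ih (fun x hx => hS x (List.mem_cons_of_mem _ hx)) (List.pairwise_cons.mp hl).2 hsl'
        (fun x hx => hmax x (List.mem_cons_of_mem _ hx))
      simpa using this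

theorem greedyCost_step {S : Finset ℕ} (hpos : ∀ s ∈ S, 0 < s) {s k : ℕ} (hs : s ∈ S)
    (hk : CanSub S k s) (hmax : ∀ x ∈ S, s < x → ¬ CanSub S k x) :
    greedyCost S k = 1 + greedyCost S (k - s) := by
  rw [greedyCost_eq, greedyCost_eq]
  refine greedyRun_step hpos hk _ ?_ ?_ ?_ ?_
  · intro x hx; simpa using hx
  · exact Finset.pairwise_sort S (· ≥ ·)
  · simpa using hs
  · intro x hx; exact hmax x (by simpa using hx)

theorem greedyRun_zero (S : Finset ℕ) : ∀ l : List ℕ, greedyRun S l 0 = 0 := by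
  intro l
  induction l with
  | nil => rfl
  | cons h l ih =>
    have : maxMult S h 0 = 0 := by
      unfold maxMult; simp
    simp [greedyRun, this, ih]

theorem greedyCost_zero (S : Finset ℕ) : greedyCost S 0 = 0 := by
  rw [greedyCost_eq]; exact greedyRun_zero S _

theorem exists_max_sub {S : Finset ℕ} {k : ℕ} (hk : 0 < k)
    (h : k ∈ AddSubmonoid.closure (S : Set ℕ)) :
    ∃ s ∈ S, CanSub S k s ∧ ∀ x ∈ S, s < x → ¬ CanSub S k x := by
  classical
  obtain ⟨c, hc⟩ := mem_closure_iff.mp h
  obtain ⟨s, hs, hs'⟩ := sub_mem_of_hasRep hk hc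
  have hne : (S.filter (fun x => CanSub S k x)).Nonempty := ⟨s, by simp [hs]; exact hs'⟩
  obtain ⟨m, hm, hmax⟩ := Finset.exists_max_image _ id hne
  rw [Finset.mem_filter] at hm
  refine ⟨m, hm.1, hm.2, fun x hx hlt hsub => ?_⟩
  have := hmax x (Finset.mem_filter.mpr ⟨hx, hsub⟩)
  simp at this
  omega

theorem hasRep_greedyCost {S : Finset ℕ} (hpos : ∀ s ∈ S, 0 < s) :
    ∀ k, k ∈ AddSubmonoid.closure (S : Set ℕ) → HasRep S k (greedyCost S k) := by
  intro k
  induction k using Nat.strong_induction_on with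
  | _ k ih =>
    intro hk
    rcases Nat.eq_zero_or_pos k with rfl | hpos'
    · rw [greedyCost_zero]; exact hasRep_zero S
    · obtain ⟨s, hs, hsub, hmax⟩ := exists_max_sub hpos' hk
      rw [greedyCost_step hpos hs hsub hmax]
      have hs0 := hpos s hs
      have h1 := ih (k - s) (by omega) hsub.2
      have h2 := h1.add hs
      have e : k - s + s = k := Nat.sub_add_cancel hsub.1
      rw [e] at h2
      rwa [add_comm 1]

theorem minCost_le {S : Finset ℕ} {k c : ℕ} (h : HasRep S k c) : minCost S k ≤ c :=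
  Nat.sInf_le h

theorem hasRep_minCost {S : Finset ℕ} {k : ℕ} (h : k ∈ AddSubmonoid.closure (S : Set ℕ)) :
    HasRep S k (minCost S k) := by
  obtain ⟨c, hc⟩ := mem_closure_iff.mp h
  exact Nat.sInf_mem (s := {c : ℕ | ∃ a : ℕ → ℕ, ∑ s ∈ S, a s * s = k ∧ ∑ s ∈ S, a s = c})
    ⟨c, hc⟩

/-- A set is greedy iff the greedy cost is at most the cost of each representation. -/
theorem isGreedy_iff {S : Finset ℕ} (hpos : ∀ s ∈ S, 0 < s) :
    IsGreedy S ↔ ∀ k c, HasRep S k c → greedyCost S k ≤ c := by
  constructor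
  · intro h k c hc
    rw [h k (mem_closure_iff.mpr ⟨c, hc⟩)]
    exact minCost_le hc
  · intro h k hk
    exact le_antisymm (h _ _ (hasRep_minCost hk)) (minCost_le (hasRep_greedyCost hpos k hk))

/-- The exchange criterion. -/
theorem isGreedy_of_exchange {S : Finset ℕ} (hpos : ∀ s ∈ S, 0 < s)
    (H : ∀ k c s, 0 < k → HasRep S k (c + 1) → s ∈ S → CanSub S k s →
      (∀ x ∈ S, s < x → ¬ CanSub S k x) → ∃ c' ≤ c, HasRep S (k - s) c') : IsGreedy S := by
  rw [isGreedy_iff hpos]
  intro k c
  induction c using Nat.strong_induction_on generalizing k with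
  | _ c ih =>
    intro hc
    rcases Nat.eq_zero_or_pos k with rfl | hk
    · rw [greedyCost_zero]; exact Nat.zero_le _
    · obtain ⟨s, hs, hsub, hmax⟩ := exists_max_sub hk (mem_closure_iff.mpr ⟨c, hc⟩)
      cases c with
      | zero => exact absurd hc.eq_zero hk.ne'
      | succ c =>
        obtain ⟨c', hc', hrep⟩ := H k c s hk hc hs hsub hmax
        rw [greedyCost_step hpos hs hsub hmax]
        have := ih c' (by omega) _ hrep
        omega

/-- Failure of greediness from a witness. -/
theorem not_isGreedy_of_witness {S : Finset ℕ} (hpos : ∀ s ∈ S, 0 < s) {k c : ℕ}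
    (h : HasRep S k c) (hlt : c < greedyCost S k) : ¬ IsGreedy S := by
  rw [isGreedy_iff hpos]
  intro H
  have := H k c h
  omega

end Pool.Agent.Helper86.Greedy
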