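import Mathlib

/-!
Greedy representations in numerical semigroups: definitions.
-/

set_option autoImplicit false

namespace Pool.Agent.Helper86.Greedy

/-- The least cost of a representation of `k` by `S`: the infimum of the costs
`∑ a_s` over all vectors `a` of natural numbers with `∑ a_s * s = k`. -/
noncomputable def minCost (S : Finset ℕ) (k : ℕ) : ℕ :=
  sInf {c : ℕ | ∃ a : ℕ → ℕ, ∑ s ∈ S, a s * s = k ∧ ∑ s ∈ S, a s = c}

open Classical in
/-- The largest `q` with `q * s ≤ k` and `k - q * s` in the semigroup generated by `S`. -/
noncomputable def maxMult (S : Finset ℕ) (s k : ℕ) : ℕ :=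
  Nat.findGreatest (fun q => q * s ≤ k ∧ k - q * s ∈ AddSubmonoid.closure (S : Set ℕ)) k

/-- The cost of the greedy representation of `k`: run through the elements `s` of `S` in
decreasing order, starting from the pair (remainder, cost) `= (k, 0)`; at `s`, with remainder
`r`, take the largest `q` with `r - q * s` in the semigroup generated by `S`, replace `r` by
`r - q * s` and add `q` to the cost. -/
noncomputable def greedyCost (S : Finset ℕ) (k : ℕ) : ℕ :=
  ((S.sort (· ≥ ·)).foldl
    (fun p s => (p.1 - maxMult S s p.1 * s, p.2 + maxMult S s p.1)) (k, 0)).2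

/-- `S` is greedy: the greedy cost is the least cost for all elements of the semigroup. -/
def IsGreedy (S : Finset ℕ) : Prop :=
  ∀ k ∈ AddSubmonoid.closure (S : Set ℕ), greedyCost S k = minCost S k

end Pool.Agent.Helper86.Greedy
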