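import Pool.Agent.Helper86.GreedyFamily

set_option autoImplicit false

namespace Pool.Agent.Helper86.Greedy

/-- membership of large numbers, `m ≥ 2` -/
theorem frob_big {m b : ℕ} (hm : 2 ≤ m) (hb : 4 * m - 1 ≤ b) (hodd : b % 2 = 1) :
    FrobeniusNumber (b + 2 * m - 2) ((insert b (E m) : Finset ℕ) : Set ℕ) := by
  constructor
  · intro h
    obtain ⟨c, hc⟩ := mem_closure_iff.mp h
    obtain ⟨J, i, x, h1, -, h3, h4⟩ := rep_structure' hc
    have hJ0 : J ≠ 0 := by rintro rfl; omega
    have hJ1 : J < 2 := by
      by_contra hJ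
      have : 2 * b ≤ J * b := Nat.mul_le_mul_right _ (by omega)
      omega
    have hJ : J = 1 := by omega
    subst hJ
    have hx : x = m - 1 := by omega
    have hi : i = 0 := by
      by_contra hi
      have : m * 1 ≤ m * i := Nat.mul_le_mul_left _ (by omega)
      omega
    subst hi
    omega
  · intro k hk
    by_contra hlt
    push Not at hlt
    apply hk
    rcases Nat.even_or_odd' k with ⟨x, hx | hx⟩
    · rw [hx]
      exact two_mem_closure_E (by omega) E_subset_insert (by omega)
    · have e : k = b + 2 * ((k - b) / 2) := by omega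
      rw [e]
      refine AddSubmonoid.add_mem _ ?_ (two_mem_closure_E (by omega) E_subset_insert (by omega))
      exact AddSubmonoid.subset_closure (Finset.mem_coe.mpr (Finset.mem_insert_self _ _))

theorem frob_one {b : ℕ} (hb : 3 ≤ b) (hodd : b % 2 = 1) :
    FrobeniusNumber (b - 2) ((insert b (E 1) : Finset ℕ) : Set ℕ) := by
  constructor
  · intro h
    obtain ⟨c, hc⟩ := mem_closure_iff.mp h
    obtain ⟨J, i, x, h1, -, h3, h4⟩ := rep_structure' hc
    have hJ : J = 0 := by
      by_contra hJ
      have : 1 * b ≤ J * b := Nat.mul_le_mul_right _ (by omega)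
      omega
    subst hJ
    omega
  · intro k hk
    by_contra hlt
    push Not at hlt
    apply hk
    rcases Nat.even_or_odd' k with ⟨x, hx | hx⟩
    · rw [hx]
      exact two_mem_closure_E (by omega) E_subset_insert (by omega)
    · have e : k = b + 2 * ((k - b) / 2) := by omega
      rw [e]
      refine AddSubmonoid.add_mem _ ?_ ?_
      · exact AddSubmonoid.subset_closure (Finset.mem_coe.mpr (Finset.mem_insert_self _ _))
      · rcases Nat.eq_zero_or_pos ((k - b) / 2) with h0 | h0
        · rw [h0]; exact AddSubmonoid.zero_mem _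
        · exact two_mem_closure_E (by omega) E_subset_insert (by omega)

theorem not_greedy_big {m b : ℕ} (hm : 2 ≤ m) (hb : 5 * m - 2 ≤ b) (hodd : b % 2 = 1) :
    ¬ IsGreedy (insert (b + 2 * m - 2) (insert b (E m))) := by
  set F := b + 2 * m - 2 with hF
  have hpos : ∀ s ∈ insert F (insert b (E m)), 0 < s := by
    intro s hs
    rcases Finset.mem_insert.mp hs with rfl | h
    · omega
    · exact pos_of_mem (by omega) (by omega) s h
  have hstruct : ∀ k c, HasRep (insert F (insert b (E m))) k c →
      ∃ j l i x, k = j * b + l * F + 2 * x ∧ c = j + l + i ∧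
      m * i ≤ x ∧ x + i ≤ 2 * m * i := by
    intro k c h
    refine rep_structure (S := insert F (insert b (E m))) ?_ c k h
    intro s hs
    rcases Finset.mem_insert.mp hs with h | h
    · exact Or.inr (Or.inl h)
    · rcases Finset.mem_insert.mp h with h | h
      · exact Or.inl h
      · exact Or.inr (Or.inr h)
  have hEsub : E m ⊆ insert F (insert b (E m)) :=
    (Finset.subset_insert _ _).trans (Finset.subset_insert _ _)
  have hrep : HasRep (insert F (insert b (E m))) (3 * b) 3 :=
    HasRep.nsmul (by simp) 3
  refine not_isGreedy_of_witness hpos hrep ?_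
  have hmem : 3 * b - F ∈ AddSubmonoid.closure ((insert F (insert b (E m)) : Finset ℕ) : Set ℕ) := by
    have : 3 * b - F = 2 * (b - m + 1) := by omega
    rw [this]
    exact two_mem_closure_E (by omega) hEsub (by omega)
  have hstep := greedyCost_step hpos (s := F) (k := 3 * b) (Finset.mem_insert_self _ _)
    ⟨by omega, hmem⟩ (by
      intro x hx hlt
      rcases Finset.mem_insert.mp hx with h | h
      · omega
      · rcases Finset.mem_insert.mp h with h | h
        · omega
        · obtain ⟨i, h1, h2, rfl⟩ := mem_E.mp h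
          omega)
  rw [hstep]
  have hr := hasRep_greedyCost hpos _ hmem
  obtain ⟨j, l, i, x, h1, h2, h3, h4⟩ := hstruct _ _ hr
  rw [h2]
  have hFodd : F % 2 = 1 := by omega
  have hj : j + l = 0 := by
    by_contra hne
    have hjl : 2 ≤ j + l := by
      by_contra hlt
      have : (j = 1 ∧ l = 0) ∨ (j = 0 ∧ l = 1) := by omega
      rcases this with ⟨rfl, rfl⟩ | ⟨rfl, rfl⟩ <;> omega
    have e1 : l * b ≤ l * F := Nat.mul_le_mul_left _ (by omega)
    have e2 : 2 * b ≤ (j + l) * b := Nat.mul_le_mul_right _ hjl
    have e3 : (j + l) * b = j * b + l * b := by ring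
    omega
  have hj0 : j = 0 := by omega
  have hl0 : l = 0 := by omega
  subst hj0 hl0
  have hi : 3 ≤ i := by
    by_contra hi
    have : 2 * m * i ≤ 2 * m * 2 := Nat.mul_le_mul_left _ (by omega)
    have hi2 : i ≤ 2 := by omega
    rcases Nat.lt_or_ge i 2 with h | h
    · have : 2 * m * i ≤ 2 * m * 1 := Nat.mul_le_mul_left _ (by omega)
      omega
    · have : i = 2 := by omega
      subst this
      omega
  omega

theorem not_greedy_one {b : ℕ} (hb : 7 ≤ b) (hodd : b % 2 = 1) :
    ¬ IsGreedy (insert (b - 2) (insert b (E 1))) := by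
  set F := b - 2 with hF
  have hpos : ∀ s ∈ insert F (insert b (E 1)), 0 < s := by
    intro s hs
    rcases Finset.mem_insert.mp hs with rfl | h
    · omega
    · exact pos_of_mem (by omega) (by omega) s h
  have hstruct : ∀ k c, HasRep (insert F (insert b (E 1))) k c →
      ∃ j l i x, k = j * b + l * F + 2 * x ∧ c = j + l + i ∧
      1 * i ≤ x ∧ x + i ≤ 2 * 1 * i := by
    intro k c h
    refine rep_structure (S := insert F (insert b (E 1))) ?_ c k h
    intro s hs
    rcases Finset.mem_insert.mp hs with h | h
    · exact Or.inr (Or.inl h)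
    · rcases Finset.mem_insert.mp h with h | h
      · exact Or.inl h
      · exact Or.inr (Or.inr h)
  have hEsub : E 1 ⊆ insert F (insert b (E 1)) :=
    (Finset.subset_insert _ _).trans (Finset.subset_insert _ _)
  have hrep : HasRep (insert F (insert b (E 1))) (3 * F) 3 :=
    HasRep.nsmul (by simp) 3
  refine not_isGreedy_of_witness hpos hrep ?_
  have hmem : 3 * F - b ∈ AddSubmonoid.closure ((insert F (insert b (E 1)) : Finset ℕ) : Set ℕ) := by
    have : 3 * F - b = 2 * (b - 3) := by omega
    rw [this]
    exact two_mem_closure_E (by omega) hEsub (by omega)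
  have hstep := greedyCost_step hpos (s := b) (k := 3 * F)
    (by simp) ⟨by omega, hmem⟩ (by
      intro x hx hlt
      rcases Finset.mem_insert.mp hx with h | h
      · omega
      · rcases Finset.mem_insert.mp h with h | h
        · omega
        · obtain ⟨i, h1, h2, rfl⟩ := mem_E.mp h
          omega)
  rw [hstep]
  have hr := hasRep_greedyCost hpos _ hmem
  obtain ⟨j, l, i, x, h1, h2, h3, h4⟩ := hstruct _ _ hr
  rw [h2]
  have hj : j + l = 0 := by
    by_contra hne
    have hjl : 2 ≤ j + l := by
      by_contra hlt
      have : (j = 1 ∧ l = 0) ∨ (j = 0 ∧ l = 1) := by omega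
      rcases this with ⟨rfl, rfl⟩ | ⟨rfl, rfl⟩ <;> omega
    have e1 : j * F ≤ j * b := Nat.mul_le_mul_left _ (by omega)
    have e2 : 2 * F ≤ (j + l) * F := Nat.mul_le_mul_right _ hjl
    have e3 : (j + l) * F = j * F + l * F := by ring
    omega
  have hj0 : j = 0 := by omega
  have hl0 : l = 0 := by omega
  subst hj0 hl0
  omega

theorem mem_erase_closure {m b : ℕ} (hm : 1 ≤ m) (hb : 4 * m - 1 ≤ b) (hodd : b % 2 = 1) :
    ∀ s ∈ insert b (E m),
      s ∉ AddSubmonoid.closure (((insert b (E m)).erase s : Finset ℕ) : Set ℕ) := by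
  intro s hs hmem
  obtain ⟨c, hc⟩ := mem_closure_iff.mp hmem
  -- a representation of `s` without `s`
  cases c with
  | zero =>
    have := hc.eq_zero
    have := pos_of_mem hm (by omega) s hs
    omega
  | succ c =>
    obtain ⟨s', hs', k', hk', hrep⟩ := hc.exists_sub
    have hs'ne : s' ≠ s := (Finset.mem_erase.mp hs').1
    have hs'S := (Finset.mem_erase.mp hs').2
    cases c with
    | zero =>
      have := hrep.eq_zero
      omega
    | succ c =>
      -- `s` is a sum of at least two elements
      have hb0 : ∀ y ∈ insert b (E m), 2 * m ≤ y := by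
        intro y hy
        rcases Finset.mem_insert.mp hy with h | h
        · omega
        · obtain ⟨i, h1, h2, rfl⟩ := mem_E.mp h; omega
      obtain ⟨s'', hs'', k'', hk'', -⟩ := hrep.exists_sub
      have g1 := hb0 s' hs'S
      have g2 := hb0 s'' (Finset.mem_erase.mp hs'').2
      rcases Finset.mem_insert.mp hs with h | h
      · -- `s = b` odd, but all the others are even
        have hall : ∀ c k, HasRep ((insert b (E m)).erase s) k c → k % 2 = 0 := by
          intro c
          induction c with
          | zero => intro k hk; have := hk.eq_zero; omega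
          | succ c ih =>
            intro k hk
            obtain ⟨y, hy, k₁, rfl, hk₁⟩ := hk.exists_sub
            have := ih k₁ hk₁
            have hyE : y ∈ E m := by
              rcases Finset.mem_insert.mp (Finset.mem_erase.mp hy).2 with h' | h'
              · exact absurd (h'.trans h.symm) (Finset.mem_erase.mp hy).1
              · exact h'
            obtain ⟨i, h1, h2, rfl⟩ := mem_E.mp hyE
            omega
        have := hall _ _ hc
        omega
      · obtain ⟨i, h1, h2, rfl⟩ := mem_E.mp h
        omega

theorem gcd_family {m b : ℕ} (hm : 1 ≤ m) (hodd : b % 2 = 1) :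
    (insert b (E m)).gcd id = 1 := by
  have h1 : (insert b (E m)).gcd id ∣ b := Finset.gcd_dvd (Finset.mem_insert_self _ _)
  have h2 : (insert b (E m)).gcd id ∣ 2 * m := Finset.gcd_dvd (f := id)
    (Finset.mem_insert_of_mem (mem_E.mpr ⟨m, le_refl _, by omega, rfl⟩))
  have h3 : (insert b (E m)).gcd id ∣ 2 := by
    rcases Nat.lt_or_ge m 2 with h | h
    · have : m = 1 := by omega
      subst this
      simpa using h2
    · have h4 : (insert b (E m)).gcd id ∣ 2 * (m + 1) := Finset.gcd_dvd (f := id)
        (Finset.mem_insert_of_mem (mem_E.mpr ⟨m + 1, by omega, by omega, rfl⟩))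
      have : 2 * (m + 1) = 2 * m + 2 := by ring
      rw [this] at h4
      exact (Nat.dvd_add_right h2).mp h4
  have h5 : (insert b (E m)).gcd id ∣ Nat.gcd b 2 := Nat.dvd_gcd h1 h3
  have h6 : Nat.gcd b 2 = 1 := by
    rw [Nat.gcd_comm, Nat.gcd_rec, hodd]
    norm_num
  rw [h6] at h5
  exact Nat.dvd_one.mp h5

end Pool.Agent.Helper86.Greedy
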