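import Pool.Agent.Helper86.Greedy

set_option autoImplicit false

namespace Pool.Agent.Helper86.Greedy

/-- The doubled interval `{2m, 2m+2, ..., 4m-2}`. -/
def E (m : ℕ) : Finset ℕ := (Finset.Ico m (2 * m)).image (fun i => 2 * i)

theorem mem_E {m s : ℕ} : s ∈ E m ↔ ∃ i, m ≤ i ∧ i < 2 * m ∧ s = 2 * i := by
  simp only [E, Finset.mem_image, Finset.mem_Ico]
  constructor
  · rintro ⟨i, ⟨h1, h2⟩, rfl⟩; exact ⟨i, h1, h2, rfl⟩
  · rintro ⟨i, h1, h2, rfl⟩; exact ⟨i, ⟨h1, h2⟩, rfl⟩

theorem card_E (m : ℕ) : (E m).card = m := by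
  unfold E
  rw [Finset.card_image_of_injective _ (fun a b h => by simpa using h)]
  simp; omega

/-- If `m i ≤ x ≤ (2m-1) i` then `2x` is a sum of `i` elements of `E m`. -/
theorem hasRep_of_E {S : Finset ℕ} {m : ℕ} (hm : 1 ≤ m) (hS : E m ⊆ S) (i : ℕ) :
    ∀ x, m * i ≤ x → x ≤ (2 * m - 1) * i → HasRep S (2 * x) i := by
  induction i with
  | zero =>
    intro x _ h
    have : x = 0 := by simpa using h
    subst this
    simpa using hasRep_zero S
  | succ i ih =>
    intro x h1 h2
    -- choose the coin z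
    have e1 : m * (i + 1) = m * i + m := by ring
    have e2 : (2 * m - 1) * (i + 1) = (2 * m - 1) * i + (2 * m - 1) := by ring
    rw [e1] at h1
    rw [e2] at h2
    by_cases hc : x - m ≤ (2 * m - 1) * i
    · have hr := (ih (x - m) (by omega) hc).add (hS (mem_E.mpr ⟨m, le_refl _, by omega, rfl⟩))
      have : 2 * (x - m) + 2 * m = 2 * x := by omega
      rwa [this] at hr
    · push Not at hc
      have hmi : m * i ≤ (2 * m - 1) * i := Nat.mul_le_mul_right _ (by omega)
      have hr := (ih ((2 * m - 1) * i) hmi (le_refl _)).add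
        (hS (mem_E.mpr ⟨x - (2 * m - 1) * i, by omega, by omega, rfl⟩))
      have : 2 * ((2 * m - 1) * i) + 2 * (x - (2 * m - 1) * i) = 2 * x := by omega
      rwa [this] at hr

/-- For `x ≥ m`, the number `2x` is a sum of `i` elements of `E m` for some `i` with
`(2m-1)(i-1) < x`. -/
theorem exists_rep_E {S : Finset ℕ} {m : ℕ} (hm : 1 ≤ m) (hS : E m ⊆ S) {x : ℕ} (hx : m ≤ x) :
    ∃ i, HasRep S (2 * x) (i + 1) ∧ (2 * m - 1) * i < x := by
  refine ⟨(x - 1) / (2 * m - 1), ?_, ?_⟩
  · set q := (x - 1) / (2 * m - 1) with hq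
    have h1 : (2 * m - 1) * q ≤ x - 1 := Nat.mul_div_le _ _
    have h2 : x - 1 < (2 * m - 1) * (q + 1) := by
      have := Nat.lt_mul_div_succ (x - 1) (show 0 < 2 * m - 1 by omega)
      exact this
    refine hasRep_of_E (by omega) hS _ _ ?_ (by omega)
    rcases Nat.eq_zero_or_pos q with h0 | h0
    · rw [h0]; omega
    · have e : (2 * m - 1) * q = m * q + (m - 1) * q := by
        rw [← add_mul]; congr 1; omega
      have : (m - 1) * 1 ≤ (m - 1) * q := Nat.mul_le_mul_left _ h0
      have e3 : m * (q + 1) = m * q + m := by ring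
      omega
  · have : (2 * m - 1) * ((x - 1) / (2 * m - 1)) ≤ x - 1 := Nat.mul_div_le _ _
    omega

/-- The structure of representations by `E m ∪ {b, F}`. -/
theorem rep_structure {m b F : ℕ} {S : Finset ℕ} (hS : ∀ s ∈ S, s = b ∨ s = F ∨ s ∈ E m)
    (c : ℕ) : ∀ k, HasRep S k c → ∃ j l i x, k = j * b + l * F + 2 * x ∧ c = j + l + i ∧
      m * i ≤ x ∧ x + i ≤ 2 * m * i := by
  induction c with
  | zero =>
    intro k hk
    exact ⟨0, 0, 0, 0, by simpa using hk.eq_zero, by simp, by simp, by simp⟩
  | succ c ih =>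
    intro k hk
    obtain ⟨s, hs, k', rfl, hk'⟩ := hk.exists_sub
    obtain ⟨j, l, i, x, rfl, rfl, h1, h2⟩ := ih k' hk'
    rcases hS s hs with rfl | rfl | h
    · exact ⟨j + 1, l, i, x, by ring, by ring, h1, h2⟩
    · exact ⟨j, l + 1, i, x, by ring, by ring, h1, h2⟩
    · obtain ⟨z, hz1, hz2, rfl⟩ := mem_E.mp h
      refine ⟨j, l, i + 1, x + z, by ring, by ring, ?_, ?_⟩
      · have : m * (i + 1) = m * i + m := by ring
        omega
      · have : 2 * m * (i + 1) = 2 * m * i + 2 * m := by ring
        omega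

theorem two_mem_closure_E {S : Finset ℕ} {m : ℕ} (hm : 1 ≤ m) (hS : E m ⊆ S) {x : ℕ}
    (hx : m ≤ x) : 2 * x ∈ AddSubmonoid.closure (S : Set ℕ) := by
  obtain ⟨i, hi, -⟩ := exists_rep_E hm hS hx
  exact mem_closure_iff.mpr ⟨_, hi⟩

theorem E_subset_insert {m b : ℕ} : E m ⊆ insert b (E m) := Finset.subset_insert _ _

theorem pos_of_mem {m b : ℕ} (hm : 1 ≤ m) (hb : 0 < b) : ∀ s ∈ insert b (E m), 0 < s := by
  intro s hs
  rcases Finset.mem_insert.mp hs with rfl | h
  · exact hb
  · obtain ⟨i, h1, -, rfl⟩ := mem_E.mp h; omega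

/-- Structure of representations by `insert b (E m)`. -/
theorem rep_structure' {m b : ℕ} {k c : ℕ} (h : HasRep (insert b (E m)) k c) :
    ∃ J i x, k = J * b + 2 * x ∧ c = J + i ∧ m * i ≤ x ∧ x ≤ (2 * m - 1) * i := by
  obtain ⟨j, l, i, x, h1, h2, h3, h4⟩ := rep_structure (m := m) (b := b) (F := b)
    (S := insert b (E m)) (by
      intro s hs
      rcases Finset.mem_insert.mp hs with h | h
      · exact Or.inl h
      · exact Or.inr (Or.inr h)) c k h
  refine ⟨j + l, i, x, by rw [h1]; ring, h2, h3, ?_⟩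
  rw [Nat.sub_mul]; omega

theorem rep_of_parts {m b J i x : ℕ} (hm : 1 ≤ m) (h1 : m * i ≤ x) (h2 : x ≤ (2 * m - 1) * i) :
    HasRep (insert b (E m)) (J * b + 2 * x) (J + i) :=
  (HasRep.nsmul (Finset.mem_insert_self b (E m)) J).trans
    (hasRep_of_E hm E_subset_insert i x h1 h2)

/-- The set `{2m, 2m+2, ..., 4m-2, b}` is greedy for odd `b ≥ 4m-1`. -/
theorem isGreedy_family {m b : ℕ} (hm : 1 ≤ m) (hb : 4 * m - 1 ≤ b) (hodd : b % 2 = 1) :
    IsGreedy (insert b (E m)) := by
  refine isGreedy_of_exchange (pos_of_mem hm (by omega)) ?_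
  intro k c s hk hrep hs hsub hmax
  obtain ⟨J, i, x, hkx, hc, hx1, hx2⟩ := rep_structure' hrep
  rcases Finset.mem_insert.mp hs with rfl | hsE
  · -- the coin is `b`
    rcases Nat.eq_zero_or_pos J with rfl | hJ
    · -- no coin `b` in the representation
      obtain ⟨c', hc'⟩ := mem_closure_iff.mp hsub.2
      obtain ⟨J', i', x', hk', -, hx1', hx2'⟩ := rep_structure' hc'
      have hks := hsub.1
      have e0 : 2 * x = (J' + 1) * s + 2 * x' := by
        have : (J' + 1) * s = J' * s + s := by ring
        omega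
      have hJ'odd : J' ≠ 0 := by
        rintro rfl
        omega
      -- cost comparison
      have hbig : (J' + 1) * (4 * m - 1) ≤ (J' + 1) * s := Nat.mul_le_mul_left _ hb
      have e1 : (J' + 1) * (4 * m - 1) = (J' + 1) * (4 * m - 2) + (J' + 1) := by
        have : 4 * m - 1 = (4 * m - 2) + 1 := by omega
        rw [this]; ring
      have e2 : 2 * ((2 * m - 1) * i) = (4 * m - 2) * i := by
        rw [← mul_assoc]; congr 1; omega
      rcases Nat.eq_zero_or_pos x' with rfl | hx'
      · refine ⟨J', ?_, ?_⟩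
        · have h : (J' + 1) * (4 * m - 2) < (4 * m - 2) * i := by omega
          rw [mul_comm] at h
          have := lt_of_mul_lt_mul_left h (Nat.zero_le _)
          omega
        · rw [hk']
          simpa using HasRep.nsmul (Finset.mem_insert_self s (E m)) J'
      · have hi' : 1 ≤ i' := by
          rcases Nat.eq_zero_or_pos i' with h | h
          · rw [h] at hx2'; omega
          · exact h
        have hmx' : m ≤ x' := le_trans (by nlinarith) hx1'
        obtain ⟨i'', hi'', hlt⟩ := exists_rep_E (S := insert s (E m)) hm E_subset_insert hmx'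
        refine ⟨J' + (i'' + 1), ?_, ?_⟩
        · have e3 : 2 * ((2 * m - 1) * i'') = (4 * m - 2) * i'' := by
            rw [← mul_assoc]; congr 1; omega
          have h : (4 * m - 2) * (J' + 1 + i'') < (4 * m - 2) * i := by
            have e4 : (4 * m - 2) * (J' + 1 + i'') = (J' + 1) * (4 * m - 2) + (4 * m - 2) * i'' := by
              ring
            omega
          have := lt_of_mul_lt_mul_left h (Nat.zero_le _)
          omega
        · rw [hk']
          exact (HasRep.nsmul (Finset.mem_insert_self s (E m)) J').trans hi''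
    · obtain ⟨J, rfl⟩ : ∃ J', J = J' + 1 := ⟨J - 1, by omega⟩
      refine ⟨J + i, by omega, ?_⟩
      have : k - s = J * s + 2 * x := by
        rw [hkx]
        have : (J + 1) * s = J * s + s := by ring
        omega
      rw [this]
      exact rep_of_parts hm hx1 hx2
  · -- the coin is even
    obtain ⟨z, hz1, hz2, rfl⟩ := mem_E.mp hsE
    have hbn : ¬ CanSub (insert b (E m)) k b :=
      hmax b (Finset.mem_insert_self _ _) (by omega)
    have hJ : J = 0 := by
      by_contra hJ
      obtain ⟨J, rfl⟩ : ∃ J', J = J' + 1 := ⟨J - 1, by omega⟩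
      have e : (J + 1) * b = J * b + b := by ring
      refine hbn ⟨by omega, ?_⟩
      have : k - b = J * b + 2 * x := by omega
      rw [this]
      exact mem_closure_iff.mpr ⟨_, rep_of_parts hm hx1 hx2⟩
    subst hJ
    obtain ⟨c', hc'⟩ := mem_closure_iff.mp hsub.2
    obtain ⟨J', i', x', hk', -, hx1', hx2'⟩ := rep_structure' hc'
    have hks := hsub.1
    have hJ' : J' = 0 := by
      by_contra hJ
      obtain ⟨J', rfl⟩ : ∃ J'', J' = J'' + 1 := ⟨J' - 1, by omega⟩
      have e : (J' + 1) * b = J' * b + b := by ring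
      refine hbn ⟨by omega, ?_⟩
      have : k - b = (J' * b + 2 * x') + 2 * z := by omega
      rw [this]
      refine AddSubmonoid.add_mem _ (mem_closure_iff.mpr ⟨_, rep_of_parts hm hx1' hx2'⟩) ?_
      exact AddSubmonoid.subset_closure (Finset.mem_coe.mpr hs)
    subst hJ'
    have hxz : x = x' + z := by omega
    have hksx : k - 2 * z = 2 * x' := by omega
    rw [hksx]
    rcases Nat.eq_zero_or_pos x' with rfl | hx'
    · exact ⟨0, Nat.zero_le _, by simpa using hasRep_zero _⟩
    · have hi' : 1 ≤ i' := by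
        rcases Nat.eq_zero_or_pos i' with h | h
        · rw [h] at hx2'; omega
        · exact h
      have hmx' : m ≤ x' := le_trans (by nlinarith) hx1'
      by_cases hz : z = 2 * m - 1
      · obtain ⟨i'', hi'', hlt⟩ := exists_rep_E (S := insert b (E m)) hm E_subset_insert hmx'
        refine ⟨i'' + 1, ?_, hi''⟩
        have h : (2 * m - 1) * (i'' + 1) < (2 * m - 1) * i := by
          have : (2 * m - 1) * (i'' + 1) = (2 * m - 1) * i'' + (2 * m - 1) := by ring
          omega
        have := lt_of_mul_lt_mul_left h (Nat.zero_le _)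
        omega
      · -- z + 1 is not subtractable
        have hn := hmax (2 * (z + 1)) (Finset.mem_insert_of_mem
          (mem_E.mpr ⟨z + 1, by omega, by omega, rfl⟩)) (by omega)
        have hx'm : x' = m := by
          by_contra hne
          apply hn
          refine ⟨by omega, ?_⟩
          have : k - 2 * (z + 1) = 2 * (x' - 1) := by omega
          rw [this]
          exact two_mem_closure_E hm E_subset_insert (by omega)
        subst hx'm
        refine ⟨1, ?_, ?_⟩
        · by_contra hc0
          have hc0 : c = 0 := by omega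
          subst hc0
          have hi1 : i = 1 := by omega
          subst hi1
          have hn2 := hmax (2 * x) (Finset.mem_insert_of_mem
            (mem_E.mpr ⟨x, by omega, by omega, rfl⟩)) (by omega)
          apply hn2
          refine ⟨by omega, ?_⟩
          have : k - 2 * x = 0 := by omega
          rw [this]
          exact AddSubmonoid.zero_mem _
        · have := (hasRep_zero (insert b (E x'))).add
            (s := 2 * x') (Finset.mem_insert_of_mem (mem_E.mpr ⟨x', le_refl _, by omega, rfl⟩))
          simpa using this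

end Pool.Agent.Helper86.Greedy
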