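import Pool.Agent.Helper86.GreedyDisproof

set_option autoImplicit false

namespace Pool.Agent.Helper86.Greedy

theorem rep3 {a b F k c : ℕ} (h : HasRep (insert F {a, b}) k c) :
    ∃ α β γ, k = α * a + β * b + γ * F ∧ c = α + β + γ := by
  induction c generalizing k with
  | zero => exact ⟨0, 0, 0, by simpa using h.eq_zero, by simp⟩
  | succ c ih =>
    obtain ⟨s, hs, k', rfl, hk'⟩ := h.exists_sub
    obtain ⟨α, β, γ, rfl, rfl⟩ := ih hk'
    simp only [Finset.mem_insert, Finset.mem_singleton] at hs
    rcases hs with rfl | rfl | rfl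
    · exact ⟨α, β, γ + 1, by ring, by ring⟩
    · exact ⟨α + 1, β, γ, by ring, by ring⟩
    · exact ⟨α, β + 1, γ, by ring, by ring⟩

theorem rep3' {a b F : ℕ} (α β γ : ℕ) :
    HasRep (insert F {a, b}) (α * a + β * b + γ * F) (α + β + γ) :=
  ((HasRep.nsmul (by simp) α).trans (HasRep.nsmul (by simp) β)).trans (HasRep.nsmul (by simp) γ)

theorem rep2 {a b k c : ℕ} (h : HasRep {a, b} k c) :
    ∃ α β, k = α * a + β * b ∧ c = α + β := by
  induction c generalizing k with
  | zero => exact ⟨0, 0, by simpa using h.eq_zero, by simp⟩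
  | succ c ih =>
    obtain ⟨s, hs, k', rfl, hk'⟩ := h.exists_sub
    obtain ⟨α, β, rfl, rfl⟩ := ih hk'
    simp only [Finset.mem_insert, Finset.mem_singleton] at hs
    rcases hs with rfl | rfl
    · exact ⟨α + 1, β, by ring, by ring⟩
    · exact ⟨α, β + 1, by ring, by ring⟩

/-- For `a ≥ 3` the set `{a, b, ab - a - b}` is greedy. -/
theorem greedy_two {a b F : ℕ} (ha : 3 ≤ a) (hab : a < b) (hco : Nat.Coprime a b)
    (hF : FrobeniusNumber F ((({a, b} : Finset ℕ)) : Set ℕ)) (hFe : F + a + b = a * b)
    (hbF : b < F) : IsGreedy (insert F {a, b}) := by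
  have hpos : ∀ s ∈ (insert F {a, b} : Finset ℕ), 0 < s := by
    intro s hs
    simp only [Finset.mem_insert, Finset.mem_singleton] at hs
    rcases hs with rfl | rfl | rfl <;> omega
  refine isGreedy_of_exchange hpos ?_
  intro k c s hk hrep hs hsub hmax
  obtain ⟨α, β, γ, hke, hce⟩ := rep3 hrep
  simp only [Finset.mem_insert, Finset.mem_singleton] at hs
  rcases hs with rfl | rfl | rfl
  · -- the coin is `F`
    rcases Nat.eq_zero_or_pos γ with rfl | hγ
    · have hks := hsub.1
      have hcases : k - s = s ∨ ∃ x y, k - s = x * a + y * b := by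
        rcases lt_trichotomy (k - s) s with h | h | h
        · right
          obtain ⟨c', hc'⟩ := mem_closure_iff.mp hsub.2
          obtain ⟨x, y, z, h1, -⟩ := rep3 hc'
          rcases Nat.eq_zero_or_pos z with rfl | hz
          · exact ⟨x, y, by simpa using h1⟩
          · have : s ≤ z * s := Nat.le_mul_of_pos_left s hz
            omega
        · exact Or.inl h
        · right
          have : k - s ∈ AddSubmonoid.closure ((({a, b} : Finset ℕ)) : Set ℕ) := by
            by_contra hn
            have := hF.2 hn
            omega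
          obtain ⟨c', hc'⟩ := mem_closure_iff.mp this
          obtain ⟨x, y, h1, -⟩ := rep2 hc'
          exact ⟨x, y, h1⟩
      rcases hcases with h | ⟨x, y, hxy⟩
      · refine ⟨1, ?_, ?_⟩
        · by_contra hc
          have hc0 : c = 0 := by omega
          have h1 : α + β = 1 := by omega
          have : α * a + β * b ≤ α * b + β * b := by
            have : α * a ≤ α * b := Nat.mul_le_mul_left _ (by omega)
            omega
          have h2 : α * b + β * b = (α + β) * b := by ring
          rw [h2, h1] at this
          omega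
        · rw [h]
          have := rep3' (a := a) (b := b) (F := s) 0 0 1
          simpa using this
      · have e : (α + 1) * a + (β + 1) * b = x * a + y * b + a * b := by
          have e1 : (α + 1) * a + (β + 1) * b = α * a + β * b + a + b := by ring
          omega
        have hkey : b ≤ α + 1 ∨ a ≤ β + 1 := by
          by_contra hn
          push Not at hn
          obtain ⟨hn1, hn2⟩ := hn
          -- modulo b and a
          have h1 : ((α + 1 : ℕ) : ℤ) * a + ((β + 1 : ℕ) : ℤ) * b = x * a + y * b + a * b := by
            exact_mod_cast e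
          have hcoZ : IsCoprime (a : ℤ) (b : ℤ) := Nat.isCoprime_iff_coprime.mpr hco
          have hd1 : (b : ℤ) ∣ ((α + 1 : ℕ) : ℤ) - x := by
            have : (b : ℤ) ∣ (((α + 1 : ℕ) : ℤ) - x) * a := ⟨y + a - ((β + 1 : ℕ) : ℤ), by linarith⟩
            exact hcoZ.symm.dvd_of_dvd_mul_right this
          have hd2 : (a : ℤ) ∣ ((β + 1 : ℕ) : ℤ) - y := by
            have : (a : ℤ) ∣ (((β + 1 : ℕ) : ℤ) - y) * b := ⟨x + b - ((α + 1 : ℕ) : ℤ), by linarith⟩
            exact hcoZ.dvd_of_dvd_mul_right this
          obtain ⟨u, hu⟩ := hd1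
          obtain ⟨v, hv⟩ := hd2
          have hu0 : u ≤ 0 := by
            by_contra hu'
            have : (b : ℤ) * 1 ≤ b * u := by
              apply mul_le_mul_of_nonneg_left (by omega) (by positivity)
            omega
          have hv0 : v ≤ 0 := by
            by_contra hv'
            have : (a : ℤ) * 1 ≤ a * v := by
              apply mul_le_mul_of_nonneg_left (by omega) (by positivity)
            omega
          have h3 : ((α + 1 : ℕ) : ℤ) = x + b * u := by linarith
          have h4 : ((β + 1 : ℕ) : ℤ) = y + a * v := by linarith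
          rw [h3, h4] at h1
          have h5 : (a : ℤ) * b * (u + v) = a * b * 1 := by linarith
          have h6 : (a : ℤ) * b ≠ 0 := mul_ne_zero (by omega) (by omega)
          have h7 := mul_left_cancel₀ h6 h5
          omega
        rcases hkey with h | h
        · obtain ⟨w, hw⟩ : ∃ w, α + 1 = b + w := ⟨α + 1 - b, by omega⟩
          refine ⟨w + (β + 1), by omega, ?_⟩
          have : k - s = w * a + (β + 1) * b + 0 * s := by
            have e2 : (α + 1) * a = a * b + w * a := by rw [hw]; ring
            omega
          rw [this]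
          exact rep3' w (β + 1) 0
        · obtain ⟨w, hw⟩ : ∃ w, β + 1 = a + w := ⟨β + 1 - a, by omega⟩
          refine ⟨(α + 1) + w, by omega, ?_⟩
          have : k - s = (α + 1) * a + w * b + 0 * s := by
            have e2 : (β + 1) * b = a * b + w * b := by rw [hw]; ring
            omega
          rw [this]
          exact rep3' (α + 1) w 0
    · obtain ⟨γ, rfl⟩ : ∃ g, γ = g + 1 := ⟨γ - 1, by omega⟩
      refine ⟨α + β + γ, by omega, ?_⟩
      have : k - s = α * a + β * b + γ * s := by
        have : (γ + 1) * s = γ * s + s := by ring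
        omega
      rw [this]
      exact rep3' α β γ
  · -- the coin is `a`
    have hFn : ¬ CanSub (insert F {s, b}) k F := hmax F (by simp) (by omega)
    have hbn : ¬ CanSub (insert F {s, b}) k b := hmax b (by simp) (by omega)
    have hγ : γ = 0 := by
      by_contra h
      obtain ⟨γ, rfl⟩ : ∃ g, γ = g + 1 := ⟨γ - 1, by omega⟩
      have : (γ + 1) * F = γ * F + F := by ring
      refine hFn ⟨by omega, ?_⟩
      have : k - F = α * s + β * b + γ * F := by omega
      rw [this]
      exact mem_closure_iff.mpr ⟨_, rep3' α β γ⟩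
    have hβ : β = 0 := by
      by_contra h
      obtain ⟨β, rfl⟩ : ∃ g, β = g + 1 := ⟨β - 1, by omega⟩
      have : (β + 1) * b = β * b + b := by ring
      refine hbn ⟨by omega, ?_⟩
      have : k - b = α * s + β * b + γ * F := by omega
      rw [this]
      exact mem_closure_iff.mpr ⟨_, rep3' α β γ⟩
    subst hγ hβ
    obtain ⟨α, rfl⟩ : ∃ g, α = g + 1 := ⟨α - 1, by omega⟩
    refine ⟨α + 0 + 0, by omega, ?_⟩
    have : k - s = α * s + 0 * b + 0 * F := by
      have : (α + 1) * s = α * s + s := by ring
      omega
    rw [this]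
    exact rep3' α 0 0
  · -- the coin is `b`
    have hFn : ¬ CanSub (insert F {a, s}) k F := hmax F (by simp) (by omega)
    have hγ : γ = 0 := by
      by_contra h
      obtain ⟨γ, rfl⟩ : ∃ g, γ = g + 1 := ⟨γ - 1, by omega⟩
      have : (γ + 1) * F = γ * F + F := by ring
      refine hFn ⟨by omega, ?_⟩
      have : k - F = α * a + β * s + γ * F := by omega
      rw [this]
      exact mem_closure_iff.mpr ⟨_, rep3' α β γ⟩
    subst hγ
    rcases Nat.eq_zero_or_pos β with rfl | hβ
    · obtain ⟨c', hc'⟩ := mem_closure_iff.mp hsub.2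
      obtain ⟨x, y, z, hxyz, -⟩ := rep3 hc'
      have hks := hsub.1
      have hz : z = 0 := by
        by_contra h
        obtain ⟨z, rfl⟩ : ∃ g, z = g + 1 := ⟨z - 1, by omega⟩
        have : (z + 1) * F = z * F + F := by ring
        refine hFn ⟨by omega, ?_⟩
        have : k - F = (x * a + y * s + z * F) + s := by omega
        rw [this]
        refine AddSubmonoid.add_mem _ (mem_closure_iff.mpr ⟨_, rep3' x y z⟩) ?_
        exact AddSubmonoid.subset_closure (by simp)
      subst hz
      refine ⟨x + y + 0, ?_, ?_⟩
      · have e1 : α * a = x * a + (y + 1) * s := by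
          have : (y + 1) * s = y * s + s := by ring
          omega
        have e2 : (y + 1) * a < (y + 1) * s := Nat.mul_lt_mul_of_pos_left hab (by omega)
        have e3 : a * (x + (y + 1)) < a * α := by
          have : a * (x + (y + 1)) = x * a + (y + 1) * a := by ring
          have e4 : a * α = α * a := by ring
          omega
        have := lt_of_mul_lt_mul_left e3 (Nat.zero_le _)
        omega
      · rw [hxyz]
        exact rep3' x y 0
    · obtain ⟨β, rfl⟩ : ∃ g, β = g + 1 := ⟨β - 1, by omega⟩
      refine ⟨α + β + 0, by omega, ?_⟩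
      have : k - s = α * a + β * s + 0 * F := by
        have : (β + 1) * s = β * s + s := by ring
        omega
      rw [this]
      exact rep3' α β 0

theorem greedy_123 : IsGreedy (insert 1 {2, 3}) := by
  refine isGreedy_of_exchange (by decide) ?_
  intro k c s hk hrep hs hsub hmax
  obtain ⟨α, β, γ, hke, hce⟩ := rep3 hrep
  have hall : ∀ n, n ∈ AddSubmonoid.closure ((insert 1 {2, 3} : Finset ℕ) : Set ℕ) := by
    intro n
    have := rep3' (a := 2) (b := 3) (F := 1) 0 0 n
    simp only [Nat.zero_mul, Nat.zero_add, Nat.mul_one] at this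
    exact mem_closure_iff.mpr ⟨_, this⟩
  have h3 : 3 ≤ k → s = 3 := by
    intro h
    by_contra hne
    have hlt : s < 3 := by
      simp only [Finset.mem_insert, Finset.mem_singleton] at hs
      omega
    exact hmax 3 (by simp) hlt ⟨h, hall _⟩
  have h2 : k = 2 → s = 2 := by
    intro h
    have := hsub.1
    by_contra hne
    have hlt : s < 2 := by
      simp only [Finset.mem_insert, Finset.mem_singleton] at hs
      omega
    exact hmax 2 (by simp) hlt ⟨by omega, hall _⟩
  have h1 : k = 1 → s = 1 := by
    intro h
    have := hsub.1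
    simp only [Finset.mem_insert, Finset.mem_singleton] at hs
    omega
  have key : ∃ x y z, k - s = x * 2 + y * 3 + z * 1 ∧ x + y + z ≤ c := by
    rcases Nat.lt_or_ge k 3 with h | h
    · exact ⟨0, 0, 0, by omega, by omega⟩
    · have := h3 h
      subst this
      rcases Nat.eq_zero_or_pos β with hβ | hβ
      · rcases Nat.eq_zero_or_pos α with hα | hα
        · exact ⟨0, 0, γ - 3, by omega, by omega⟩
        · rcases Nat.eq_zero_or_pos γ with hγ | hγ
          · exact ⟨α - 2, 0, 1, by omega, by omega⟩
          · exact ⟨α - 1, 0, γ - 1, by omega, by omega⟩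
      · exact ⟨α, β - 1, γ, by omega, by omega⟩
  obtain ⟨x, y, z, h, h'⟩ := key
  exact ⟨_, h', by rw [h]; exact rep3' x y z⟩

theorem greedy_235 : IsGreedy (insert 3 {2, 5}) := by
  refine isGreedy_of_exchange (by decide) ?_
  intro k c s hk hrep hs hsub hmax
  obtain ⟨α, β, γ, hke, hce⟩ := rep3 hrep
  have hmem : ∀ n, 2 ≤ n → n ∈ AddSubmonoid.closure ((insert 3 {2, 5} : Finset ℕ) : Set ℕ) := by
    intro n hn
    rcases Nat.even_or_odd' n with ⟨m, hm | hm⟩
    · have := rep3' (a := 2) (b := 5) (F := 3) m 0 0
      have e : m * 2 + 0 * 5 + 0 * 3 = n := by omega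
      rw [e] at this
      exact mem_closure_iff.mpr ⟨_, this⟩
    · have := rep3' (a := 2) (b := 5) (F := 3) (m - 1) 0 1
      have e : (m - 1) * 2 + 0 * 5 + 1 * 3 = n := by omega
      rw [e] at this
      exact mem_closure_iff.mpr ⟨_, this⟩
  have h0 : 0 ∈ AddSubmonoid.closure ((insert 3 {2, 5} : Finset ℕ) : Set ℕ) :=
    AddSubmonoid.zero_mem _
  have hn1 : 1 ∉ AddSubmonoid.closure ((insert 3 {2, 5} : Finset ℕ) : Set ℕ) := by
    intro h
    obtain ⟨c', hc'⟩ := mem_closure_iff.mp h
    obtain ⟨x, y, z, h1, -⟩ := rep3 hc'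
    omega
  have hs' : s = 2 ∨ s = 3 ∨ s = 5 := by
    simp only [Finset.mem_insert, Finset.mem_singleton] at hs
    omega
  have hks := hsub.1
  have hk1 : k ≠ 1 := by omega
  have hksn : k - s ≠ 1 := by
    intro h
    exact hn1 (h ▸ hsub.2)
  have h5 : k = 5 ∨ 7 ≤ k → s = 5 := by
    intro h
    by_contra hne
    refine hmax 5 (by simp) (by omega) ⟨by omega, ?_⟩
    rcases h with h | h
    · rw [h]; exact h0
    · exact hmem _ (by omega)
  have h3 : k = 3 ∨ k = 6 → s = 3 := by
    intro h
    by_contra hne
    have hs2 : s = 2 := by omega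
    refine hmax 3 (by simp) (by omega) ⟨by omega, ?_⟩
    rcases h with h | h
    · rw [h]; exact h0
    · exact hmem _ (by omega)
  have key : ∃ x y z, k - s = x * 2 + y * 5 + z * 3 ∧ x + y + z ≤ c := by
    rcases Nat.lt_or_ge k 7 with h | h
    · rcases (by omega : k = 2 ∨ k = 3 ∨ k = 4 ∨ k = 5 ∨ k = 6) with h | h | h | h | h
      · exact ⟨0, 0, 0, by omega, by omega⟩
      · exact ⟨0, 0, 0, by omega, by omega⟩
      · exact ⟨1, 0, 0, by omega, by omega⟩
      · exact ⟨0, 0, 0, by omega, by omega⟩
      · exact ⟨0, 0, 1, by omega, by omega⟩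
    · have := h5 (Or.inr h)
      subst this
      rcases Nat.eq_zero_or_pos β with hβ | hβ
      · rcases Nat.eq_zero_or_pos α with hα | hα
        · exact ⟨2, 0, γ - 3, by omega, by omega⟩
        · rcases Nat.eq_zero_or_pos γ with hγ | hγ
          · exact ⟨α - 4, 0, 1, by omega, by omega⟩
          · exact ⟨α - 1, 0, γ - 1, by omega, by omega⟩
      · exact ⟨α, β - 1, γ, by omega, by omega⟩
  obtain ⟨x, y, z, h, h'⟩ := key
  exact ⟨_, h', by rw [h]; exact rep3' x y z⟩

/-- Classification for two generators. -/
theorem two_generators {a b F : ℕ} (ha : 2 ≤ a) (hab : a < b) (hco : Nat.Coprime a b)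
    (hF : FrobeniusNumber F ({a, b} : Set ℕ)) :
    IsGreedy {a, b, F} ↔ (3 ≤ a ∨ b ≤ 5) := by
  have hF' : FrobeniusNumber (a * b - a - b) ({a, b} : Set ℕ) :=
    frobeniusNumber_pair hco (by omega) (by omega)
  have hFe : F = a * b - a - b := IsGreatest.unique hF hF'
  have hset : ({a, b, F} : Finset ℕ) = insert F {a, b} := by
    ext x; simp; tauto
  rw [hset]
  rcases Nat.lt_or_ge a 3 with h | h
  · have ha2 : a = 2 := by omega
    subst ha2
    have hodd : b % 2 = 1 := by
      rcases Nat.mod_two_eq_zero_or_one b with h' | h'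
      · exfalso
        have : 2 ∣ b := Nat.dvd_of_mod_eq_zero h'
        have := Nat.dvd_gcd (dvd_refl 2) this
        rw [hco] at this
        omega
      · exact h'
    have hFb : F = b - 2 := by omega
    constructor
    · intro hg
      right
      by_contra hb
      have hb7 : 7 ≤ b := by omega
      apply not_greedy_one hb7 hodd
      have : (insert (b - 2) (insert b (E 1)) : Finset ℕ) = insert F {2, b} := by
        rw [hFb]
        have : E 1 = {2} := by decide
        rw [this]
        congr 1
        ext x; simp; tauto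
      rw [this]
      exact hg
    · rintro (h' | h')
      · omega
      · rcases (by omega : b = 3 ∨ b = 5) with rfl | rfl
        · rw [hFb]; exact greedy_123
        · rw [hFb]; exact greedy_235
  · have e1 : a + b + 1 ≤ a * b := by nlinarith
    have e2 : a + b + b < a * b := by nlinarith
    constructor
    · intro _; exact Or.inl h
    · intro _
      have hco' : FrobeniusNumber F ((({a, b} : Finset ℕ)) : Set ℕ) := by simpa using hF
      exact greedy_two h hab hco hco' (by omega) (by omega)

end Pool.Agent.Helper86.Greedy
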