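import Mathlib

/-!
`P`-domination numbers of graphs.
-/

set_option autoImplicit false

namespace Pool.Agent.Helper86.ZDom

open Classical in
/-- The value `f(N[v])` of `f` on the closed neighbourhood of `v`. -/
noncomputable def closedSum {V : Type*} [Fintype V] (G : SimpleGraph V) (f : V → ℝ) (v : V) : ℝ :=
  ∑ u ∈ Finset.univ.filter (fun u => u = v ∨ G.Adj v u), f u

/-- The `P`-domination number: the infimum (in the extended reals) of the weights of the maps
`f : V → P` with `f(N[v]) ≥ 1` for all vertices `v`. -/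
noncomputable def gammaP (P : Set ℝ) {V : Type*} [Fintype V] (G : SimpleGraph V) : EReal :=
  ⨅ f : {f : V → ℝ // (∀ v, f v ∈ P) ∧ ∀ v, 1 ≤ closedSum G f v}, ((∑ v, f.1 v : ℝ) : EReal)

end Pool.Agent.Helper86.ZDom
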