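import Pool.Agent.Helper86.ZDomInstInj
import Pool.Agent.Helper86.ZDomGammaDef

/-!
The decision problem.
-/

set_option autoImplicit false

namespace Pool.Agent.Helper86.ZDom

open Computability

/-- The encoding of instances as strings. -/
noncomputable def instEncoding : Encoding GraphInstance Bool where
  encode := instBits
  decode := Function.partialInv instBits
  decode_encode := fun I => Function.partialInv_left instBits_injective I

/-- The decision problem for the `P`-domination number: is `γ_P(G) ≤ k`? -/
def DomProblem (P : Set ℝ) : Set GraphInstance :=
  {I | gammaP P I.G ≤ ((I.k : ℝ) : EReal)}

end Pool.Agent.Helper86.ZDom
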