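import Pool.Agent.Helper86.ZDomGamma
import Pool.Agent.Helper86.ZDomNPDef
import Pool.Agent.Helper86.Poly.Hard

/-!
The reduction graph with coded vertices.
-/

set_option autoImplicit false

namespace Pool.Agent.Helper86.ZDom

open Finset PT

/-- Codes of vertices. -/
abbrev Vtx : Type := ((ℕ × Bool) × ℕ) ⊕ (ℕ × ℕ × Bool)

/-- The codes of all vertices. -/
def verts (N L m : ℕ) : List Vtx :=
  ((List.range N ×ˢ [true, false]) ×ˢ List.range 3).map Sum.inl ++
    (List.range (N + L) ×ˢ (List.range m ×ˢ [true, false])).map Sum.inr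

/-- Adjacency between a path vertex and a gadget vertex. -/
def mixb (s : List (List (Bool × ℕ))) (p : (ℕ × Bool) × ℕ) (q : ℕ × ℕ × Bool) : Bool :=
  decide (p.2 = 0) && ((s.getD q.1 []).any fun l =>
    decide (l.1 = p.1.2) && decide (l.2 = p.1.1)) && (decide (q.2.1 = 0) && !q.2.2)

/-- Adjacency of codes. -/
def adjb (s : List (List (Bool × ℕ))) (x y : Vtx) : Bool :=
  Sum.elim
    (fun p => Sum.elim
      (fun p' => (decide (p.1.1 = p'.1.1) && decide (p.1.2 = p'.1.2)) &&
        (decide (p.2 + 1 = p'.2) || decide (p'.2 + 1 = p.2)))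
      (fun q => mixb s p q) y)
    (fun q => Sum.elim
      (fun p => mixb s p q)
      (fun q' => decide (q.1 = q'.1) && !(decide (q.2.1 = q'.2.1))) y) x

/-- The code of a vertex. -/
def vcode {N L m : ℕ} : ((Fin N × Bool) × Fin 3) ⊕ (Fin (N + L) × Fin m × Bool) → Vtx :=
  Sum.map (fun p => ((p.1.1.val, p.1.2), p.2.val)) (fun q => (q.1.val, q.2.1.val, q.2.2))

theorem vcode_injective {N L m : ℕ} : Function.Injective (vcode (N := N) (L := L) (m := m)) := by
  rintro (⟨⟨i, b⟩, r⟩ | ⟨j, c, b⟩) (⟨⟨i', b'⟩, r'⟩ | ⟨j', c', b'⟩) h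
  · simp only [vcode, Sum.map_inl, Sum.inl.injEq, Prod.mk.injEq] at h
    obtain ⟨⟨h1, h2⟩, h3⟩ := h
    rw [Fin.ext h1, h2, Fin.ext h3]
  · simp [vcode] at h
  · simp [vcode] at h
  · simp only [vcode, Sum.map_inr, Sum.inr.injEq, Prod.mk.injEq] at h
    obtain ⟨h1, h2, h3⟩ := h
    rw [Fin.ext h1, Fin.ext h2, h3]

theorem verts_nodup (N L m : ℕ) : (verts N L m).Nodup := by
  unfold verts
  refine List.Nodup.append ?_ ?_ ?_
  · refine List.Nodup.map Sum.inl_injective ?_
    exact (List.nodup_range.product (by decide)).product List.nodup_range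
  · refine List.Nodup.map Sum.inr_injective ?_
    exact List.nodup_range.product (List.nodup_range.product (by decide))
  · intro x hx hy
    obtain ⟨a, _, rfl⟩ := List.mem_map.mp hx
    obtain ⟨b, _, hb⟩ := List.mem_map.mp hy
    exact absurd hb (by simp)

theorem mem_verts_iff {N L m : ℕ} (v : Vtx) :
    v ∈ verts N L m ↔ ∃ x : ((Fin N × Bool) × Fin 3) ⊕ (Fin (N + L) × Fin m × Bool),
      vcode x = v := by
  unfold verts
  rw [List.mem_append, List.mem_map, List.mem_map]
  constructor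
  · rintro (⟨⟨⟨i, b⟩, r⟩, h, rfl⟩ | ⟨⟨j, c, b⟩, h, rfl⟩)
    · simp only [List.mem_product, List.mem_range] at h
      exact ⟨.inl ((⟨i, h.1.1⟩, b), ⟨r, h.2⟩), rfl⟩
    · simp only [List.mem_product, List.mem_range] at h
      exact ⟨.inr (⟨j, h.1⟩, ⟨c, h.2.1⟩, b), rfl⟩
  · rintro ⟨⟨⟨i, b⟩, r⟩ | ⟨j, c, b⟩, rfl⟩
    · refine Or.inl ⟨((i.val, b), r.val), ?_, rfl⟩
      simp only [List.mem_product, List.mem_range]
      exact ⟨⟨i.isLt, by cases b <;> simp⟩, r.isLt⟩
    · refine Or.inr ⟨(j.val, c.val, b), ?_, rfl⟩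
      simp only [List.mem_product, List.mem_range]
      exact ⟨j.isLt, c.isLt, by cases b <;> simp⟩

theorem exists_vequiv (N L m : ℕ) :
    ∃ e : Fin (verts N L m).length ≃ ((Fin N × Bool) × Fin 3) ⊕ (Fin (N + L) × Fin m × Bool),
      ∀ i, vcode (e i) = (verts N L m)[i] := by
  have h := fun i : Fin (verts N L m).length =>
    (mem_verts_iff (N := N) (L := L) (m := m) (verts N L m)[i]).mp (List.getElem_mem _)
  choose e he using h
  have hb : Function.Bijective e := by
    constructor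
    · intro i j hij
      have h1 : (verts N L m)[i] = (verts N L m)[j] := by rw [← he, ← he, hij]
      exact Fin.ext ((verts_nodup N L m).getElem_inj_iff.mp h1)
    · intro x
      obtain ⟨i, hi, hx⟩ := List.getElem_of_mem ((mem_verts_iff (vcode x)).mpr ⟨x, rfl⟩)
      refine ⟨⟨i, hi⟩, vcode_injective ?_⟩
      rw [he]
      exact hx
  exact ⟨Equiv.ofBijective e hb, he⟩

theorem mixb_iff {N m : ℕ} (φ : List (List (Bool × ℕ))) (u : Fin N × Bool) (r : Fin 3)
    (j : Fin (N + φ.length)) (c : Fin m) (b : Bool) :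
    mixb (satSets N φ) ((u.1.val, u.2), r.val) (j.val, c.val, b) = true ↔
      r = 0 ∧ satInc N φ j u ∧ c.val = 0 ∧ b = false := by
  unfold mixb satInc
  rw [Bool.and_eq_true, Bool.and_eq_true, Bool.and_eq_true, List.any_eq_true]
  have h1 : decide (r.val = 0) = true ↔ r = 0 := by
    rw [decide_eq_true_eq]
    constructor
    · intro h; exact Fin.ext h
    · rintro rfl; rfl
  have h2 : (∃ x ∈ (satSets N φ).getD j.val [], (decide (x.1 = u.2) && decide (x.2 = u.1.val)) = true)
      ↔ (u.2, u.1.val) ∈ (satSets N φ).getD j.val [] := by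
    constructor
    · rintro ⟨x, hx, hx2⟩
      rw [Bool.and_eq_true, decide_eq_true_eq, decide_eq_true_eq] at hx2
      rw [← hx2.1, ← hx2.2]
      exact hx
    · intro h
      exact ⟨_, h, by simp⟩
  simp only [h1, h2, decide_eq_true_eq, Bool.not_eq_true', and_assoc]

theorem adjb_iff {N m : ℕ} (φ : List (List (Bool × ℕ)))
    (x y : ((Fin N × Bool) × Fin 3) ⊕ (Fin (N + φ.length) × Fin m × Bool)) :
    adjb (satSets N φ) (vcode x) (vcode y) = true ↔ (rgraph (satInc N φ) m).Adj x y := by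
  rcases x with ⟨u, r⟩ | ⟨j, c, b⟩ <;> rcases y with ⟨u', r'⟩ | ⟨j', c', b'⟩
  · show ((decide (u.1.val = u'.1.val) && decide (u.2 = u'.2)) &&
        (decide (r.val + 1 = r'.val) || decide (r'.val + 1 = r.val))) = true ↔
      (u = u' ∧ (r.val + 1 = r'.val ∨ r'.val + 1 = r.val))
    simp only [Bool.and_eq_true, Bool.or_eq_true, decide_eq_true_eq]
    constructor
    · rintro ⟨⟨h1, h2⟩, h3⟩
      exact ⟨Prod.ext (Fin.ext h1) h2, h3⟩
    · rintro ⟨rfl, h3⟩
      exact ⟨⟨rfl, rfl⟩, h3⟩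
  · exact mixb_iff φ u r j' c' b'
  · exact mixb_iff φ u' r' j c b
  · show (decide (j.val = j'.val) && !(decide (c.val = c'.val))) = true ↔ (j = j' ∧ c ≠ c')
    simp only [Bool.and_eq_true, decide_eq_true_eq, Bool.not_eq_true', decide_eq_false_iff_not,
      ne_eq, Fin.ext_iff]

end Pool.Agent.Helper86.ZDom
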