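import Mathlib

/-!
Integer domination of graphs: the reduction from hitting set, combinatorial core.
-/

set_option autoImplicit false

namespace Pool.Agent.Helper86.ZDom

open Finset

section general

variable {V : Type*} [Fintype V]

/-- `a` if `P` holds and `0` otherwise. -/
noncomputable def ind (P : Prop) (a : ℤ) : ℤ := @ite ℤ P (Classical.propDecidable P) a 0

theorem ind_eq (P : Prop) [Decidable P] (a : ℤ) : ind P a = if P then a else 0 := by
  unfold ind
  split_ifs <;> rfl

@[simp] theorem ind_true (a : ℤ) : ind True a = a := by simp [ind]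
@[simp] theorem ind_false (a : ℤ) : ind False a = 0 := by simp [ind]

/-- The weight `f(N[v])` of the closed neighbourhood of `v`. -/
noncomputable def nsum (G : SimpleGraph V) (f : V → ℤ) (v : V) : ℤ :=
  ∑ u, ind (u = v ∨ G.Adj v u) (f u)

/-- There is a `ℤ`-dominating function of `G` of weight at most `k`. -/
def ZDomLE (G : SimpleGraph V) (k : ℤ) : Prop :=
  ∃ f : V → ℤ, (∀ v, 1 ≤ nsum G f v) ∧ ∑ v, f v ≤ k

end general

section reduction

variable {U J : Type*} [Fintype U] [Fintype J]

/-- Adjacency of the reduction graph. -/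
def radj (I : J → U → Prop) (m : ℕ) :
    (U × Fin 3) ⊕ (J × Fin m × Bool) → (U × Fin 3) ⊕ (J × Fin m × Bool) → Prop
  | .inl (u, i), .inl (u', i') => u = u' ∧ (i.val + 1 = i'.val ∨ i'.val + 1 = i.val)
  | .inl (u, i), .inr (j, c, b) => i = 0 ∧ I j u ∧ c.val = 0 ∧ b = false
  | .inr (j, c, b), .inl (u, i) => i = 0 ∧ I j u ∧ c.val = 0 ∧ b = false
  | .inr (j, c, _), .inr (j', c', _) => j = j' ∧ c ≠ c'

/-- The reduction graph: every element `u` carries a path `(u,0),(u,1),(u,2)`, every set `j`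
carries a cocktail party graph on `Fin m × Bool`, and `(j,0,false)` is joined to all `(u,0)` with
`u` in the set `j`. -/
def rgraph (I : J → U → Prop) (m : ℕ) : SimpleGraph ((U × Fin 3) ⊕ (J × Fin m × Bool)) where
  Adj := radj I m
  symm := by
    refine ⟨?_⟩
    rintro (⟨u, i⟩ | ⟨j, c, b⟩) (⟨u', i'⟩ | ⟨j', c', b'⟩) h
    · exact ⟨h.1.symm, h.2.symm⟩
    · exact h
    · exact h
    · exact ⟨h.1.symm, h.2.symm⟩
  loopless := by
    refine ⟨?_⟩
    rintro (⟨u, i⟩ | ⟨j, c, b⟩) h
    · obtain ⟨-, h | h⟩ := h <;> omega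
    · exact h.2 rfl

theorem nsum_two (I : J → U → Prop) (m : ℕ) (f : (U × Fin 3) ⊕ (J × Fin m × Bool) → ℤ) (u : U) :
    nsum (rgraph I m) f (.inl (u, 2)) = f (.inl (u, 1)) + f (.inl (u, 2)) := by
  classical
  unfold nsum
  rw [Fintype.sum_sum_type, Fintype.sum_prod_type]
  have h1 : ∀ u' : U, ∑ i : Fin 3, ind ((Sum.inl (u', i) : (U × Fin 3) ⊕ (J × Fin m × Bool))
      = .inl (u, 2) ∨ (rgraph I m).Adj (.inl (u, 2)) (.inl (u', i))) (f (.inl (u', i)))
      = ind (u' = u) (f (.inl (u, 1)) + f (.inl (u, 2))) := by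
    intro u'
    by_cases h : u' = u
    · subst h
      rw [Fin.sum_univ_three]
      simp [rgraph, radj]
    · have : ¬ (u = u') := fun e => h e.symm
      simp [rgraph, radj, h, this]
  have h2 : ∑ x : J × Fin m × Bool, ind ((Sum.inr x : (U × Fin 3) ⊕ (J × Fin m × Bool))
      = .inl (u, 2) ∨ (rgraph I m).Adj (.inl (u, 2)) (.inr x)) (f (.inr x)) = 0 := by
    refine Finset.sum_eq_zero ?_
    rintro ⟨j, c, b⟩ _
    simp [rgraph, radj]
  rw [Finset.sum_congr rfl (fun u' _ => h1 u'), h2]
  simp [ind_eq]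

theorem nsum_one (I : J → U → Prop) (m : ℕ) (f : (U × Fin 3) ⊕ (J × Fin m × Bool) → ℤ) (u : U) :
    nsum (rgraph I m) f (.inl (u, 1))
      = f (.inl (u, 0)) + f (.inl (u, 1)) + f (.inl (u, 2)) := by
  classical
  unfold nsum
  rw [Fintype.sum_sum_type, Fintype.sum_prod_type]
  have h1 : ∀ u' : U, ∑ i : Fin 3, ind ((Sum.inl (u', i) : (U × Fin 3) ⊕ (J × Fin m × Bool))
      = .inl (u, 1) ∨ (rgraph I m).Adj (.inl (u, 1)) (.inl (u', i))) (f (.inl (u', i)))
      = ind (u' = u) (f (.inl (u, 0)) + f (.inl (u, 1)) + f (.inl (u, 2))) := by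
    intro u'
    by_cases h : u' = u
    · subst h
      rw [Fin.sum_univ_three]
      simp [rgraph, radj]
    · have : ¬ (u = u') := fun e => h e.symm
      simp [rgraph, radj, h, this]
  have h2 : ∑ x : J × Fin m × Bool, ind ((Sum.inr x : (U × Fin 3) ⊕ (J × Fin m × Bool))
      = .inl (u, 1) ∨ (rgraph I m).Adj (.inl (u, 1)) (.inr x)) (f (.inr x)) = 0 := by
    refine Finset.sum_eq_zero ?_
    rintro ⟨j, c, b⟩ _
    simp [rgraph, radj]
  rw [Finset.sum_congr rfl (fun u' _ => h1 u'), h2]
  simp [ind_eq]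

theorem nsum_zero (I : J → U → Prop) {m : ℕ} (hm : 0 < m)
    (f : (U × Fin 3) ⊕ (J × Fin m × Bool) → ℤ) (u : U) :
    nsum (rgraph I m) f (.inl (u, 0))
      = f (.inl (u, 0)) + f (.inl (u, 1)) +
        ∑ j, ind (I j u) (f (.inr (j, ⟨0, hm⟩, false))) := by
  classical
  unfold nsum
  rw [Fintype.sum_sum_type, Fintype.sum_prod_type]
  have h1 : ∀ u' : U, ∑ i : Fin 3, ind ((Sum.inl (u', i) : (U × Fin 3) ⊕ (J × Fin m × Bool))
      = .inl (u, 0) ∨ (rgraph I m).Adj (.inl (u, 0)) (.inl (u', i))) (f (.inl (u', i)))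
      = ind (u' = u) (f (.inl (u, 0)) + f (.inl (u, 1))) := by
    intro u'
    by_cases h : u' = u
    · subst h
      rw [Fin.sum_univ_three]
      simp [rgraph, radj]
    · have : ¬ (u = u') := fun e => h e.symm
      simp [rgraph, radj, h, this]
  have h2 : ∑ x : J × Fin m × Bool, ind ((Sum.inr x : (U × Fin 3) ⊕ (J × Fin m × Bool))
      = .inl (u, 0) ∨ (rgraph I m).Adj (.inl (u, 0)) (.inr x)) (f (.inr x))
      = ∑ j, ind (I j u) (f (.inr (j, ⟨0, hm⟩, false))) := by
    rw [Fintype.sum_prod_type]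
    refine Finset.sum_congr rfl (fun j _ => ?_)
    rw [Fintype.sum_prod_type]
    rw [Finset.sum_eq_single (⟨0, hm⟩ : Fin m)]
    · rw [Fintype.sum_bool]
      simp [rgraph, radj]
    · intro c _ hc
      have : c.val ≠ 0 := fun h => hc (Fin.ext h)
      simp [rgraph, radj, this]
    · simp
  rw [Finset.sum_congr rfl (fun u' _ => h1 u'), h2]
  simp [ind_eq]

/-- total weight on the gadget `j` -/
def gsum (m : ℕ) (f : (U × Fin 3) ⊕ (J × Fin m × Bool) → ℤ) (j : J) : ℤ :=
  ∑ x : Fin m × Bool, f (.inr (j, x))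

theorem nsum_gadget (I : J → U → Prop) {m : ℕ}
    (f : (U × Fin 3) ⊕ (J × Fin m × Bool) → ℤ) (j : J) (c : Fin m) (b : Bool) :
    nsum (rgraph I m) f (.inr (j, c, b))
      = gsum m f j - f (.inr (j, c, !b)) +
        ind (c.val = 0 ∧ b = false) (∑ u, ind (I j u) (f (.inl (u, 0)))) := by
  classical
  unfold nsum
  rw [Fintype.sum_sum_type, Fintype.sum_prod_type]
  have h1 : ∀ u : U, ∑ i : Fin 3, ind ((Sum.inl (u, i) : (U × Fin 3) ⊕ (J × Fin m × Bool))
      = .inr (j, c, b) ∨ (rgraph I m).Adj (.inr (j, c, b)) (.inl (u, i)))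
      (f (.inl (u, i)))
      = ind (c.val = 0 ∧ b = false) (ind (I j u) (f (.inl (u, 0)))) := by
    intro u
    rw [Fin.sum_univ_three]
    by_cases h : c.val = 0 ∧ b = false
    · obtain ⟨hc, rfl⟩ := h
      simp [rgraph, radj, hc]
    · have h' : ¬ (I j u ∧ c.val = 0 ∧ b = false) := fun e => h e.2
      simp [rgraph, radj, h]
  have h2 : ∑ x : J × Fin m × Bool, ind ((Sum.inr x : (U × Fin 3) ⊕ (J × Fin m × Bool))
      = .inr (j, c, b) ∨ (rgraph I m).Adj (.inr (j, c, b)) (.inr x)) (f (.inr x))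
      = gsum m f j - f (.inr (j, c, !b)) := by
    rw [Fintype.sum_prod_type, Finset.sum_eq_single j]
    · have h3 : ∀ x : Fin m × Bool, ind ((Sum.inr (j, x) : (U × Fin 3) ⊕ (J × Fin m × Bool))
          = .inr (j, c, b) ∨ (rgraph I m).Adj (.inr (j, c, b)) (.inr (j, x)))
          (f (.inr (j, x)))
          = f (.inr (j, x)) - ind (x = (c, !b)) (f (.inr (j, c, !b))) := by
        rintro ⟨c', b'⟩
        by_cases hc : c' = c
        · subst hc
          by_cases hb : b' = b
          · subst hb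
            simp
          · have hb' : b' = !b := by cases b <;> cases b' <;> simp_all
            subst hb'
            simp [rgraph, radj]
        · have hc' : c ≠ c' := fun e => hc e.symm
          simp [rgraph, radj, hc, hc']
      rw [Finset.sum_congr rfl (fun x _ => h3 x), Finset.sum_sub_distrib]
      simp [gsum, ind_eq]
    · intro j' _ hj'
      refine Finset.sum_eq_zero ?_
      rintro ⟨c', b'⟩ _
      have : j ≠ j' := fun e => hj' e.symm
      simp [rgraph, radj, hj', this]
    · simp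
  rw [Finset.sum_congr rfl (fun u' _ => h1 u'), h2]
  by_cases h : c.val = 0 ∧ b = false
  · simp only [h, and_self, ind_true]
    ring
  · simp [h]

theorem ind_nonneg {P : Prop} {a : ℤ} (h : 0 ≤ a) : 0 ≤ ind P a := by
  classical
  rw [ind_eq]; split_ifs
  · exact h
  · exact le_refl _

theorem ind_le_ind {P : Prop} {a b : ℤ} (h : a ≤ b) : ind P a ≤ ind P b := by
  classical
  rw [ind_eq, ind_eq]; split_ifs
  · exact h
  · exact le_refl _

theorem ind_le {P : Prop} {a : ℤ} (h : 0 ≤ a) : ind P a ≤ a := by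
  classical
  rw [ind_eq]; split_ifs
  · exact le_refl _
  · exact h

/-- Summing the constraints of a gadget. -/
theorem gadget_ineq (I : J → U → Prop) {m : ℕ} (hm : 0 < m)
    (f : (U × Fin 3) ⊕ (J × Fin m × Bool) → ℤ) (hf : ∀ v, 1 ≤ nsum (rgraph I m) f v) (j : J) :
    (2 * m : ℤ) ≤ (2 * m - 1) * gsum m f j + ∑ u, ind (I j u) (f (.inl (u, 0))) := by
  classical
  have h1 : ∑ x : Fin m × Bool, (1 : ℤ) ≤ ∑ x : Fin m × Bool, nsum (rgraph I m) f (.inr (j, x)) :=
    Finset.sum_le_sum (fun x _ => hf _)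
  have h2 : ∑ x : Fin m × Bool, (1 : ℤ) = 2 * m := by
    simp [mul_comm]
  have h3 : ∑ x : Fin m × Bool, nsum (rgraph I m) f (.inr (j, x))
      = (2 * m - 1) * gsum m f j + ∑ u, ind (I j u) (f (.inl (u, 0))) := by
    have h4 : ∀ x : Fin m × Bool, nsum (rgraph I m) f (.inr (j, x))
        = gsum m f j - f (.inr (j, x.1, !x.2)) +
        ind (x.1.val = 0 ∧ x.2 = false) (∑ u, ind (I j u) (f (.inl (u, 0)))) := by
      rintro ⟨c, b⟩
      exact nsum_gadget I f j c b
    rw [Finset.sum_congr rfl (fun x _ => h4 x), Finset.sum_add_distrib, Finset.sum_sub_distrib]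
    have h5 : ∑ x : Fin m × Bool, gsum m f j = 2 * m * gsum m f j := by
      simp [mul_comm]
    have h6 : ∑ x : Fin m × Bool, f (.inr (j, x.1, !x.2)) = gsum m f j := by
      unfold gsum
      rw [Fintype.sum_prod_type, Fintype.sum_prod_type]
      refine Finset.sum_congr rfl (fun c _ => ?_)
      rw [Fintype.sum_bool, Fintype.sum_bool]
      simp [add_comm]
    have h7 : ∑ x : Fin m × Bool, ind (x.1.val = 0 ∧ x.2 = false)
        (∑ u, ind (I j u) (f (.inl (u, 0)))) = ∑ u, ind (I j u) (f (.inl (u, 0))) := by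
      rw [Finset.sum_eq_single ((⟨0, hm⟩ : Fin m), false)]
      · simp
      · rintro ⟨c, b⟩ _ hne
        have : ¬ (c.val = 0 ∧ b = false) := by
          rintro ⟨h, rfl⟩
          exact hne (by simp [Fin.ext_iff, h])
        simp only [this, ind_false]
      · simp
    rw [h5, h6, h7]
    ring
  linarith

/-- The number of sets `j` not hit by `S`. -/
noncomputable def unhit (I : J → U → Prop) (S : Finset U) : ℕ :=
  (@Finset.filter J (fun j => ∀ u ∈ S, ¬ I j u) (Classical.decPred _) Finset.univ).card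

theorem unhit_eq (I : J → U → Prop) (S : Finset U) :
    (unhit I S : ℤ) = ∑ j, ind (∀ u ∈ S, ¬ I j u) 1 := by
  classical
  unfold unhit
  rw [Finset.card_filter]
  push_cast
  refine Finset.sum_congr rfl (fun j _ => ?_)
  rw [ind_eq]

/-- Lower bound: a `ℤ`-dominating function of small weight gives a good set `S`. -/
theorem exists_set (I : J → U → Prop) {m : ℕ} (hm : 0 < m)
    (hq : Fintype.card U + Fintype.card J ≤ 2 * m - 1) {t : ℤ}
    (h : ZDomLE (rgraph I m) (Fintype.card U + Fintype.card J + t)) :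
    ∃ S : Finset U, (S.card : ℤ) + unhit I S ≤ t := by
  classical
  obtain ⟨f, hf, hw⟩ := h
  set a : U → ℤ := fun u => f (.inl (u, 0)) with ha
  set b : U → ℤ := fun u => max (a u - 1) 0 with hb
  set F : J → ℤ := gsum m f with hF
  set S : Finset U := Finset.univ.filter (fun u => 1 ≤ a u) with hS
  refine ⟨S, ?_⟩
  have hb0 : ∀ u, 0 ≤ b u := fun u => le_max_right _ _
  have hab : ∀ u, max (a u) 0 = ind (u ∈ S) 1 + b u := by
    intro u
    rw [ind_eq]
    simp only [hS, hb, Finset.mem_filter, Finset.mem_univ, true_and]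
    split_ifs with h1
    · rw [max_eq_left (by omega), max_eq_left (by omega)]; ring
    · rw [max_eq_right (by omega), max_eq_right (by omega)]; ring
  -- total weight
  have htot : ∑ v, f v = ∑ u, (f (.inl (u, 0)) + f (.inl (u, 1)) + f (.inl (u, 2))) + ∑ j, F j := by
    rw [Fintype.sum_sum_type, Fintype.sum_prod_type, Fintype.sum_prod_type]
    congr 1
    refine Finset.sum_congr rfl (fun u _ => ?_)
    rw [Fin.sum_univ_three]
  have hpath : ∀ u, 1 + max (a u) 0 ≤ f (.inl (u, 0)) + f (.inl (u, 1)) + f (.inl (u, 2)) := by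
    intro u
    have h1 := hf (.inl (u, 1))
    have h2 := hf (.inl (u, 2))
    rw [nsum_one] at h1
    rw [nsum_two] at h2
    rcases le_total (a u) 0 with h | h
    · rw [max_eq_right h]; linarith
    · rw [max_eq_left h]
      simp only [ha]
      linarith
  have hC : ∀ j, ∑ u, ind (I j u) (f (.inl (u, 0)))
      ≤ ∑ u, ind (I j u) (ind (u ∈ S) 1) + ∑ u, ind (I j u) (b u) := by
    intro j
    rw [← Finset.sum_add_distrib]
    refine Finset.sum_le_sum (fun u _ => ?_)
    have h1 : ind (I j u) (f (.inl (u, 0))) ≤ ind (I j u) (max (a u) 0) :=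
      ind_le_ind (le_max_left _ _)
    have h2 : ind (I j u) (max (a u) 0) = ind (I j u) (ind (u ∈ S) 1) + ind (I j u) (b u) := by
      rw [hab u, ind_eq (I j u), ind_eq (I j u), ind_eq (I j u)]
      split_ifs <;> ring
    linarith
  have hs : ∀ j, ∑ u, ind (I j u) (ind (u ∈ S) 1) ≤ Fintype.card U := by
    intro j
    calc ∑ u, ind (I j u) (ind (u ∈ S) 1) ≤ ∑ u : U, (1 : ℤ) := by
          refine Finset.sum_le_sum (fun u _ => ?_)
          have h1 : ind (u ∈ S) 1 ≤ 1 := ind_le (by norm_num)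
          have h2 : 0 ≤ ind (u ∈ S) 1 := ind_nonneg (by norm_num)
          exact (ind_le h2).trans h1
      _ = Fintype.card U := by simp
  have hB0 : ∀ j, 0 ≤ ∑ u, ind (I j u) (b u) := fun j =>
    Finset.sum_nonneg (fun u _ => ind_nonneg (hb0 u))
  set q : ℤ := 2 * m - 1 with hqdef
  have hqU : (Fintype.card U : ℤ) + Fintype.card J ≤ q := by
    have : 1 ≤ 2 * m := by omega
    zify [this] at hq
    linarith
  have hq1 : 1 ≤ q := by
    have : (1 : ℤ) ≤ m := by exact_mod_cast hm
    linarith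
  have hgad : ∀ j, q + 1 ≤ q * F j + ∑ u, ind (I j u) (f (.inl (u, 0))) := by
    intro j
    have := gadget_ineq I hm f hf j
    linarith
  -- unhit sets
  have hun : ∀ j, (∀ u ∈ S, ¬ I j u) → 2 ≤ F j := by
    intro j hj
    have h1 : ∑ u, ind (I j u) (f (.inl (u, 0))) ≤ 0 := by
      refine Finset.sum_nonpos (fun u _ => ?_)
      rw [ind_eq]
      split_ifs with h2
      · by_contra h3
        push Not at h3
        exact hj u (by simp only [hS, Finset.mem_filter, Finset.mem_univ, true_and]; exact h3) h2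
      · exact le_refl _
    have h2 := hgad j
    have h3 : q * 1 < q * F j := by linarith
    have := lt_of_mul_lt_mul_left h3 (by linarith)
    linarith
  set D : ℤ := q - Fintype.card U with hD
  have hDJ : (Fintype.card J : ℤ) ≤ D := by linarith
  -- hit sets
  have hhit : ∀ j, D * (1 - F j) ≤ ∑ u, ind (I j u) (b u) ∨ (∀ u ∈ S, ¬ I j u) := by
    intro j
    by_cases hj : ∀ u ∈ S, ¬ I j u
    · exact Or.inr hj
    · left
      have h2 := hgad j
      have h3 := hC j
      have h4 := hs j
      have h5 := hB0 j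
      have h6 : q * (1 - F j) ≤ Fintype.card U + ∑ u, ind (I j u) (b u) := by
        have : q * (1 - F j) = q - q * F j := by ring
        linarith
      rcases le_or_gt (1 - F j) 0 with h7 | h7
      · have h8 : 0 ≤ D := le_trans (by positivity) hDJ
        have : D * (1 - F j) ≤ 0 := mul_nonpos_of_nonneg_of_nonpos h8 h7
        linarith
      · have h8 : (1 : ℤ) ≤ 1 - F j := h7
        have h9 : (Fintype.card U : ℤ) * 1 ≤ Fintype.card U * (1 - F j) :=
          mul_le_mul_of_nonneg_left h8 (by positivity)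
        have : D * (1 - F j) = q * (1 - F j) - Fintype.card U * (1 - F j) := by
          rw [hD]; ring
        linarith
  -- combine
  have hkey : ∑ j, (1 - F j) ≤ ∑ u, b u - unhit I S := by
    rw [unhit_eq]
    rcases isEmpty_or_nonempty J with hJ | hJ
    · simp only [Finset.univ_eq_empty, Finset.sum_empty, sub_zero]
      exact Finset.sum_nonneg (fun u _ => hb0 u)
    · have hDpos : 0 < D := by
        have : (0 : ℤ) < Fintype.card J := by exact_mod_cast Fintype.card_pos
        linarith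
      have h1 : ∀ j, D * (1 - F j + ind (∀ u ∈ S, ¬ I j u) 1) ≤ ∑ u, ind (I j u) (b u) := by
        intro j
        by_cases hj : ∀ u ∈ S, ¬ I j u
        · have h2 := hun j hj
          rw [ind_eq, if_pos hj]
          have : D * (1 - F j + 1) ≤ 0 := mul_nonpos_of_nonneg_of_nonpos hDpos.le (by linarith)
          exact this.trans (hB0 j)
        · rw [ind_eq, if_neg hj, add_zero]
          rcases hhit j with h | h
          · exact h
          · exact absurd h hj
      have h2 : D * ∑ j, (1 - F j + ind (∀ u ∈ S, ¬ I j u) 1) ≤ D * ∑ u, b u := by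
        rw [Finset.mul_sum]
        calc ∑ j, D * (1 - F j + ind (∀ u ∈ S, ¬ I j u) 1)
            ≤ ∑ j, ∑ u, ind (I j u) (b u) := Finset.sum_le_sum (fun j _ => h1 j)
          _ ≤ ∑ j : J, ∑ u, b u := by
              refine Finset.sum_le_sum (fun j _ => Finset.sum_le_sum (fun u _ => ?_))
              exact ind_le (hb0 u)
          _ = Fintype.card J * ∑ u, b u := by simp
          _ ≤ D * ∑ u, b u :=
              mul_le_mul_of_nonneg_right hDJ (Finset.sum_nonneg (fun u _ => hb0 u))
      have h3 := le_of_mul_le_mul_left h2 hDpos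
      rw [Finset.sum_add_distrib] at h3
      linarith
  have hcardS : (S.card : ℤ) = ∑ u, ind (u ∈ S) 1 := by
    have : ∀ u, ind (u ∈ S) 1 = if u ∈ S then (1 : ℤ) else 0 := fun u => ind_eq _ _
    rw [Finset.sum_congr rfl (fun u _ => this u)]
    simp
  have hsumpath : (Fintype.card U : ℤ) + (S.card + ∑ u, b u)
      ≤ ∑ u, (f (.inl (u, 0)) + f (.inl (u, 1)) + f (.inl (u, 2))) := by
    rw [hcardS, ← Finset.sum_add_distrib]
    have : (Fintype.card U : ℤ) = ∑ u : U, 1 := by simp
    rw [this, ← Finset.sum_add_distrib]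
    refine Finset.sum_le_sum (fun u _ => ?_)
    have := hpath u
    rw [hab u] at this
    linarith
  have hsumF : ∑ j, (1 - F j) = Fintype.card J - ∑ j, F j := by
    rw [Finset.sum_sub_distrib]; simp
  rw [htot] at hw
  linarith

/-- The `{0,1}`-valued function attached to a set `S`. -/
noncomputable def fS (I : J → U → Prop) (m : ℕ) (S : Finset U) :
    (U × Fin 3) ⊕ (J × Fin m × Bool) → ℤ
  | .inl (u, i) => if i = 0 then ind (u ∈ S) 1 else if i = 1 then 1 else 0
  | .inr (j, c, b) => if c.val = 0 then (if b = true then 1 else ind (∀ u ∈ S, ¬ I j u) 1) else 0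

theorem fS_zero_one (I : J → U → Prop) (m : ℕ) (S : Finset U) (v) :
    fS I m S v = 0 ∨ fS I m S v = 1 := by
  classical
  rcases v with ⟨u, i⟩ | ⟨j, c, b⟩
  · simp only [fS, ind_eq]
    split_ifs <;> simp
  · simp only [fS, ind_eq]
    split_ifs <;> simp

theorem gsum_fS (I : J → U → Prop) {m : ℕ} (hm : 0 < m) (S : Finset U) (j : J) :
    gsum m (fS I m S) j = 1 + ind (∀ u ∈ S, ¬ I j u) 1 := by
  classical
  unfold gsum
  rw [Fintype.sum_prod_type, Finset.sum_eq_single (⟨0, hm⟩ : Fin m)]
  · rw [Fintype.sum_bool]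
    simp [fS]
  · intro c _ hc
    have : c.val ≠ 0 := fun h => hc (Fin.ext h)
    simp [fS, this]
  · simp

theorem fS_dom (I : J → U → Prop) {m : ℕ} (hm : 0 < m) (S : Finset U) (v) :
    1 ≤ nsum (rgraph I m) (fS I m S) v := by
  classical
  rcases v with ⟨u, i⟩ | ⟨j, c, b⟩
  · fin_cases i
    · show 1 ≤ nsum (rgraph I m) (fS I m S) (.inl (u, 0))
      rw [nsum_zero I hm]
      have h1 : 0 ≤ fS I m S (.inl (u, 0)) := by
        rcases fS_zero_one I m S (.inl (u, 0)) with h | h <;> simp [h]
      have h2 : fS I m S (.inl (u, 1)) = 1 := by simp [fS]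
      have h3 : 0 ≤ ∑ j, ind (I j u) (fS I m S (.inr (j, ⟨0, hm⟩, false))) := by
        refine Finset.sum_nonneg (fun j _ => ind_nonneg ?_)
        rcases fS_zero_one I m S (.inr (j, ⟨0, hm⟩, false)) with h | h <;> simp [h]
      linarith
    · show 1 ≤ nsum (rgraph I m) (fS I m S) (.inl (u, 1))
      rw [nsum_one]
      have h1 : 0 ≤ fS I m S (.inl (u, 0)) := by
        rcases fS_zero_one I m S (.inl (u, 0)) with h | h <;> simp [h]
      have h2 : fS I m S (.inl (u, 1)) = 1 := by simp [fS]
      have h3 : fS I m S (.inl (u, 2)) = 0 := by simp [fS]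
      linarith
    · show 1 ≤ nsum (rgraph I m) (fS I m S) (.inl (u, 2))
      rw [nsum_two]
      have h2 : fS I m S (.inl (u, 1)) = 1 := by simp [fS]
      have h3 : fS I m S (.inl (u, 2)) = 0 := by simp [fS]
      linarith
  · rw [nsum_gadget, gsum_fS I hm]
    have hC0 : 0 ≤ ∑ u, ind (I j u) (fS I m S (.inl (u, 0))) := by
      refine Finset.sum_nonneg (fun u _ => ind_nonneg ?_)
      rcases fS_zero_one I m S (.inl (u, 0)) with h | h <;> simp [h]
    by_cases hc : c.val = 0
    · cases b with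
      | true =>
        have : fS I m S (.inr (j, c, !true)) = ind (∀ u ∈ S, ¬ I j u) 1 := by
          simp [fS, hc]
        rw [this]
        simp
      | false =>
        have : fS I m S (.inr (j, c, !false)) = 1 := by simp [fS, hc]
        rw [this]
        simp only [hc, and_self, ind_true]
        by_cases hj : ∀ u ∈ S, ¬ I j u
        · rw [ind_eq, if_pos hj]
          linarith
        · rw [ind_eq, if_neg hj]
          push Not at hj
          obtain ⟨u, hu, hIu⟩ := hj
          have h1 : ind (I j u) (fS I m S (.inl (u, 0))) = 1 := by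
            simp [fS, hIu, hu]
          have h2 : ind (I j u) (fS I m S (.inl (u, 0)))
              ≤ ∑ u, ind (I j u) (fS I m S (.inl (u, 0))) := by
            refine Finset.single_le_sum (f := fun u => ind (I j u) (fS I m S (.inl (u, 0))))
              (fun u _ => ind_nonneg ?_) (Finset.mem_univ u)
            rcases fS_zero_one I m S (.inl (u, 0)) with h | h <;> simp [h]
          linarith
    · have h1 : fS I m S (.inr (j, c, !b)) = 0 := by simp [fS, hc]
      have h2 : 0 ≤ ind (∀ u ∈ S, ¬ I j u) 1 := ind_nonneg (by norm_num)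
      have h3 : 0 ≤ ind (c.val = 0 ∧ b = false) (∑ u, ind (I j u) (fS I m S (.inl (u, 0)))) :=
        ind_nonneg hC0
      rw [h1]
      linarith

theorem fS_sum (I : J → U → Prop) {m : ℕ} (hm : 0 < m) (S : Finset U) :
    ∑ v, fS I m S v = Fintype.card U + Fintype.card J + ((S.card : ℤ) + unhit I S) := by
  classical
  rw [Fintype.sum_sum_type, Fintype.sum_prod_type, Fintype.sum_prod_type]
  have h1 : ∀ u : U, ∑ i : Fin 3, fS I m S (.inl (u, i)) = ind (u ∈ S) 1 + 1 := by
    intro u
    rw [Fin.sum_univ_three]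
    simp [fS]
  have h2 : ∀ j : J, ∑ x : Fin m × Bool, fS I m S (.inr (j, x))
      = 1 + ind (∀ u ∈ S, ¬ I j u) 1 := fun j => gsum_fS I hm S j
  rw [Finset.sum_congr rfl (fun u _ => h1 u), Finset.sum_congr rfl (fun j _ => h2 j),
    Finset.sum_add_distrib, Finset.sum_add_distrib, unhit_eq]
  have hcardS : ∑ u, ind (u ∈ S) 1 = (S.card : ℤ) := by
    have : ∀ u, ind (u ∈ S) 1 = if u ∈ S then (1 : ℤ) else 0 := fun u => ind_eq _ _
    rw [Finset.sum_congr rfl (fun u _ => this u)]
    simp
  rw [hcardS]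
  simp
  ring

/-- The core equivalence. -/
theorem zdomLE_iff (I : J → U → Prop) {m : ℕ} (hm : 0 < m)
    (hq : Fintype.card U + Fintype.card J ≤ 2 * m - 1) (t : ℤ) :
    ZDomLE (rgraph I m) (Fintype.card U + Fintype.card J + t) ↔
    ∃ S : Finset U, (S.card : ℤ) + unhit I S ≤ t := by
  constructor
  · exact exists_set I hm hq
  · rintro ⟨S, hS⟩
    exact ⟨fS I m S, fS_dom I hm S, by rw [fS_sum I hm]; linarith⟩

end reduction

end Pool.Agent.Helper86.ZDom
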