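import Pool.Agent.Helper86.ZDomGammaDef

/-!
The reduction graph from domination.
-/

set_option autoImplicit false

namespace Pool.Agent.Helper86.ZDom

/-- Adjacency of the reduction graph of `H` with parameter `m`: the vertices are
`(v, i)` for a vertex `v` of `H` and `i < 3`, and `(w, c, b)` for a vertex `w` of `H`, `c < m` and a
Boolean `b`.  The vertices `(v,0), (v,1), (v,2)` form a path; `(w,c,b)` and `(w,c',b')` are adjacent
when `c ≠ c'`; and `(v,0)` is adjacent to `(w,0,false)` when `v` is in the closed neighbourhood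
of `w` in `H`. -/
def redAdj {V : Type*} (H : SimpleGraph V) (m : ℕ) :
    (V × Fin 3) ⊕ (V × Fin m × Bool) → (V × Fin 3) ⊕ (V × Fin m × Bool) → Prop
  | .inl (u, i), .inl (u', i') => u = u' ∧ (i.val + 1 = i'.val ∨ i'.val + 1 = i.val)
  | .inl (u, i), .inr (w, c, b) => i = 0 ∧ (u = w ∨ H.Adj w u) ∧ c.val = 0 ∧ b = false
  | .inr (w, c, b), .inl (u, i) => i = 0 ∧ (u = w ∨ H.Adj w u) ∧ c.val = 0 ∧ b = false
  | .inr (w, c, _), .inr (w', c', _) => w = w' ∧ c ≠ c'

/-- The reduction graph of `H`. It has `3 |V| + 2 m |V|` vertices. -/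
def redGraph {V : Type*} (H : SimpleGraph V) (m : ℕ) :
    SimpleGraph ((V × Fin 3) ⊕ (V × Fin m × Bool)) where
  Adj := redAdj H m
  symm := by
    refine ⟨?_⟩
    rintro (⟨u, i⟩ | ⟨j, c, b⟩) (⟨u', i'⟩ | ⟨j', c', b'⟩) h
    · exact ⟨h.1.symm, h.2.symm⟩
    · exact h
    · exact h
    · exact ⟨h.1.symm, h.2.symm⟩
  loopless := by
    refine ⟨?_⟩
    rintro (⟨u, i⟩ | ⟨j, c, b⟩) h
    · obtain ⟨-, h | h⟩ := h <;> omega
    · exact h.2 rfl

end Pool.Agent.Helper86.ZDom
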