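import Pool.Agent.Helper86.ZDomDef
import Pool.Agent.Helper86.ZDomCore

set_option autoImplicit false

namespace Pool.Agent.Helper86.ZDom

open Finset

variable {V : Type*} [Fintype V]

theorem closedSum_cast (G : SimpleGraph V) (g : V → ℤ) (v : V) :
    closedSum G (fun u => (g u : ℝ)) v = (nsum G g v : ℝ) := by
  classical
  unfold closedSum nsum
  rw [Finset.sum_filter]
  push_cast
  refine Finset.sum_congr rfl (fun u _ => ?_)
  rw [ind_eq]
  split_ifs <;> simp

omit [Fintype V] in
theorem redGraph_eq (H : SimpleGraph V) (m : ℕ) :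
    redGraph H m = rgraph (fun w u => u = w ∨ H.Adj w u) m := by
  ext x y
  rcases x with ⟨u, i⟩ | ⟨j, c, b⟩ <;> rcases y with ⟨u', i'⟩ | ⟨j', c', b'⟩ <;> rfl

/-- The main identity. -/
theorem gamma_red (H : SimpleGraph V) (P : Set ℝ) (h01 : {0, 1} ⊆ P)
    (hP : P ⊆ Set.range ((↑) : ℤ → ℝ)) :
    gammaP P (redGraph H (2 * Fintype.card V + 1))
      = gammaP {0, 1} H + ((2 * Fintype.card V : ℕ) : EReal) := by
  classical
  set n := Fintype.card V with hn
  set m := 2 * n + 1 with hm
  set I : V → V → Prop := fun w u => u = w ∨ H.Adj w u with hI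
  rw [redGraph_eq]
  have hcast : ((2 * n : ℕ) : EReal) = ((2 * n : ℝ) : EReal) := by
    push_cast; rfl
  apply le_antisymm
  · -- upper bound
    rw [hcast]
    rw [← EReal.sub_le_iff_le_add (Or.inl (EReal.coe_ne_bot _)) (Or.inl (EReal.coe_ne_top _))]
    refine le_iInf ?_
    rintro ⟨f, hf1, hf2⟩
    rw [EReal.sub_le_iff_le_add (Or.inl (EReal.coe_ne_bot _)) (Or.inl (EReal.coe_ne_top _))]
    set S : Finset V := Finset.univ.filter (fun v => f v = 1) with hS
    have hfS : ∀ v, f v = if v ∈ S then 1 else 0 := by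
      intro v
      simp only [hS, Finset.mem_filter, Finset.mem_univ, true_and]
      split_ifs with h
      · exact h
      · rcases hf1 v with h' | h'
        · exact h'
        · exact absurd h' h
    have hsum : ∑ v, f v = S.card := by
      rw [Finset.sum_congr rfl (fun v _ => hfS v)]
      simp
    have hun : unhit I S = 0 := by
      unfold unhit
      rw [Finset.card_eq_zero]
      refine Finset.eq_empty_of_forall_notMem (fun w hw' => ?_)
      have hw := (@Finset.mem_filter _ _ (Classical.decPred _) _ _).mp hw' |>.2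
      have h1 := hf2 w
      unfold closedSum at h1
      have h2 : ∑ u ∈ Finset.univ.filter (fun u => u = w ∨ H.Adj w u), f u = 0 := by
        refine Finset.sum_eq_zero (fun u hu => ?_)
        rw [hfS u, if_neg]
        intro huS
        exact hw u huS (Finset.mem_filter.mp hu).2
      rw [h2] at h1
      linarith
    have hd := fS_dom I (m := m) (by omega) S
    have hs := fS_sum I (m := m) (by omega) S
    have hmem : ∀ v, ((fS I m S v : ℤ) : ℝ) ∈ P := by
      intro v
      rcases fS_zero_one I m S v with h | h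
      · rw [h]; exact h01 (by simp)
      · rw [h]; exact h01 (by simp)
    have hdom' : ∀ v, 1 ≤ closedSum (rgraph I m) (fun v => ((fS I m S v : ℤ) : ℝ)) v := by
      intro v
      rw [closedSum_cast]
      exact_mod_cast hd v
    refine (iInf_le _ ⟨fun v => ((fS I m S v : ℤ) : ℝ), hmem, hdom'⟩).trans ?_
    show ((∑ v, ((fS I m S v : ℤ) : ℝ) : ℝ) : EReal) ≤ ((∑ v, f v : ℝ) : EReal) + ((2 * n : ℝ) : EReal)
    rw [← EReal.coe_add, EReal.coe_le_coe_iff, hsum]
    have : (∑ v, ((fS I m S v : ℤ) : ℝ)) = ((∑ v, fS I m S v : ℤ) : ℝ) := by push_cast; rfl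
    rw [this, hs, hun]
    push_cast
    rw [← hn]
    linarith
  · -- lower bound
    refine le_iInf ?_
    rintro ⟨f, hf1, hf2⟩
    choose g hg using fun v => hP (hf1 v)
    have hfg : f = fun v => (g v : ℝ) := funext (fun v => (hg v).symm)
    subst hfg
    have hdom : ∀ v, 1 ≤ nsum (rgraph I m) g v := by
      intro v
      have := hf2 v
      rw [closedSum_cast] at this
      exact_mod_cast this
    have hZ : ZDomLE (rgraph I m) (Fintype.card V + Fintype.card V + (∑ v, g v - 2 * n)) :=
      ⟨g, hdom, by rw [← hn]; linarith⟩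
    obtain ⟨S, hS⟩ := exists_set I (by omega) (by omega) hZ
    set D : Finset V := S ∪ Finset.univ.filter (fun j => ∀ u ∈ S, ¬ I j u) with hD
    have hDcard : D.card ≤ S.card + unhit I S := by
      refine (Finset.card_union_le _ _).trans ?_
      unfold unhit
      gcongr
    have hDdom : ∀ w, ∃ u ∈ D, u = w ∨ H.Adj w u := by
      intro w
      by_cases hw : ∀ u ∈ S, ¬ I w u
      · exact ⟨w, Finset.mem_union_right _ (by simpa using hw), Or.inl rfl⟩
      · push Not at hw
        obtain ⟨u, hu, hIu⟩ := hw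
        exact ⟨u, Finset.mem_union_left _ hu, hIu⟩
    have hle : gammaP {0, 1} H ≤ ((D.card : ℝ) : EReal) := by
      have hm1 : ∀ v, (fun v => if v ∈ D then (1 : ℝ) else 0) v ∈ ({0, 1} : Set ℝ) := by
        intro v
        simp only
        split_ifs <;> simp
      have hm2 : ∀ v, 1 ≤ closedSum H (fun v => if v ∈ D then (1 : ℝ) else 0) v := by
        intro v
        obtain ⟨u, hu, hadj⟩ := hDdom v
        unfold closedSum
        have h1 : (fun v => if v ∈ D then (1 : ℝ) else 0) u = 1 := by simp [hu]
        have h2 : (fun v => if v ∈ D then (1 : ℝ) else 0) u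
            ≤ ∑ u ∈ Finset.univ.filter (fun u => u = v ∨ H.Adj v u),
              (fun v => if v ∈ D then (1 : ℝ) else 0) u := by
          refine Finset.single_le_sum (f := fun u => if u ∈ D then (1 : ℝ) else 0)
            (fun i _ => by split_ifs <;> norm_num) ?_
          simpa using hadj
        rw [h1] at h2
        exact h2
      refine (iInf_le _ ⟨fun v => if v ∈ D then 1 else 0, hm1, hm2⟩).trans ?_
      show ((∑ v, (if v ∈ D then (1 : ℝ) else 0) : ℝ) : EReal) ≤ _
      simp
    rw [hcast]
    refine (add_le_add_left hle _).trans ?_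
    show ((D.card : ℝ) : EReal) + ((2 * n : ℝ) : EReal) ≤ ((∑ v, (g v : ℝ) : ℝ) : EReal)
    rw [← EReal.coe_add, EReal.coe_le_coe_iff]
    have h1 : ((D.card : ℤ)) ≤ ∑ v, g v - 2 * n := by
      refine le_trans ?_ hS
      exact_mod_cast hDcard
    have h2 : ((D.card : ℝ)) ≤ ∑ v, (g v : ℝ) - 2 * n := by exact_mod_cast h1
    linarith

end Pool.Agent.Helper86.ZDom
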