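import Pool.Agent.Helper86.ZDomCore
import Pool.Agent.Helper86.Poly.Tableau

/-!
From satisfiability to hitting set with a penalty for the sets that are not hit.
-/

set_option autoImplicit false

namespace Pool.Agent.Helper86.ZDom

open Finset PT

/-- The sets of the hitting set instance: the two literals of every variable, and the clauses. -/
def satSets (N : ℕ) (φ : List (List (Bool × ℕ))) : List (List (Bool × ℕ)) :=
  (List.range N).map (fun i => [(true, i), (false, i)]) ++ φ

/-- The incidence relation. -/
def satInc (N : ℕ) (φ : List (List (Bool × ℕ))) (j : Fin (N + φ.length)) (u : Fin N × Bool) :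
    Prop := (u.2, u.1.val) ∈ (satSets N φ).getD j.val []

theorem satSets_left (N : ℕ) (φ : List (List (Bool × ℕ))) (i : Fin N) :
    (satSets N φ).getD (Fin.castAdd φ.length i).val [] = [(true, i.val), (false, i.val)] := by
  unfold satSets
  rw [List.getD_append _ _ _ _ (by simp), List.getD_eq_getElem _ _ (by simp)]
  simp

theorem satSets_right (N : ℕ) (φ : List (List (Bool × ℕ))) (i : Fin φ.length) :
    (satSets N φ).getD (Fin.natAdd N i).val [] = φ[i] := by
  unfold satSets
  rw [List.getD_append_right _ _ _ _ (by simp), List.getD_eq_getElem _ _ (by simp)]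
  simp

theorem sat_iff_hit (N : ℕ) (φ : List (List (Bool × ℕ))) (hN : ∀ C ∈ φ, ∀ l ∈ C, l.2 < N) :
    Sat φ ↔ ∃ S : Finset (Fin N × Bool), (S.card : ℤ) + unhit (satInc N φ) S ≤ N := by
  classical
  constructor
  · rintro ⟨ν, hν⟩
    refine ⟨Finset.univ.image (fun i : Fin N => (i, ν i)), ?_⟩
    have h1 : (Finset.univ.image (fun i : Fin N => (i, ν i))).card = N := by
      rw [Finset.card_image_of_injective]
      · simp
      · intro a b h; exact (Prod.mk.inj h).1
    have h2 : unhit (satInc N φ) (Finset.univ.image (fun i : Fin N => (i, ν i))) = 0 := by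
      unfold unhit
      rw [Finset.card_eq_zero]
      refine Finset.eq_empty_of_forall_notMem (fun j hj => ?_)
      have hj' := (@Finset.mem_filter _ _ (Classical.decPred _) _ _).mp hj |>.2
      refine Fin.addCases (motive := fun j => (∀ u ∈ Finset.univ.image (fun i : Fin N => (i, ν i)),
        ¬ satInc N φ j u) → False) ?_ ?_ j hj'
      · intro i h
        refine h (i, ν i) (Finset.mem_image_of_mem _ (Finset.mem_univ _)) ?_
        unfold satInc
        rw [satSets_left]
        cases ν i <;> simp
      · intro i h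
        obtain ⟨l, hl, hl2⟩ := hν φ[i] (List.getElem_mem _)
        have hlt := hN φ[i] (List.getElem_mem _) l hl
        refine h (⟨l.2, hlt⟩, l.1) ?_ ?_
        · rw [Finset.mem_image]
          exact ⟨⟨l.2, hlt⟩, Finset.mem_univ _, by rw [← hl2]⟩
        · unfold satInc
          rw [satSets_right]
          exact hl
    rw [h1, h2]
    simp
  · rintro ⟨S, hS⟩
    set a : Fin N → ℤ := fun i => ind ((i, true) ∈ S) 1 + ind ((i, false) ∈ S) 1 with ha
    set u : Fin (N + φ.length) → ℤ := fun j => ind (∀ x ∈ S, ¬ satInc N φ j x) 1 with hu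
    have hcard : (S.card : ℤ) = ∑ i, a i := by
      have h1 : (S.card : ℤ) = ∑ x : Fin N × Bool, ind (x ∈ S) 1 := by
        have h2 : ∀ x : Fin N × Bool, ind (x ∈ S) 1 = if x ∈ S then (1 : ℤ) else 0 :=
          fun x => ind_eq _ _
        rw [Finset.sum_congr rfl (fun x _ => h2 x), Finset.sum_ite_mem]
        simp
      rw [h1, Fintype.sum_prod_type]
      refine Finset.sum_congr rfl (fun i _ => ?_)
      rw [Fintype.sum_bool]
    have hun : (unhit (satInc N φ) S : ℤ) = ∑ i, u (Fin.castAdd φ.length i) +
        ∑ i, u (Fin.natAdd N i) := by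
      rw [unhit_eq, ← Fin.sum_univ_add]
    have hu0 : ∀ j, 0 ≤ u j := fun j => ind_nonneg (by norm_num)
    have hau : ∀ i, 0 ≤ a i + u (Fin.castAdd φ.length i) - 1 := by
      intro i
      simp only [ha, hu]
      by_cases h1 : (i, true) ∈ S
      · have h2 : ind ((i, true) ∈ S) 1 = (1 : ℤ) := by rw [ind_eq, if_pos h1]
        have h3 : (0 : ℤ) ≤ ind ((i, false) ∈ S) 1 := ind_nonneg (by norm_num)
        have h4 := hu0 (Fin.castAdd φ.length i)
        simp only [hu] at h4
        rw [h2]; linarith
      · by_cases h2 : (i, false) ∈ S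
        · have h2 : ind ((i, false) ∈ S) 1 = (1 : ℤ) := by rw [ind_eq, if_pos h2]
          have h3 : (0 : ℤ) ≤ ind ((i, true) ∈ S) 1 := ind_nonneg (by norm_num)
          have h4 := hu0 (Fin.castAdd φ.length i)
          simp only [hu] at h4
          rw [h2]; linarith
        · have h3 : ind (∀ x ∈ S, ¬ satInc N φ (Fin.castAdd φ.length i) x) 1 = (1 : ℤ) := by
            rw [ind_eq, if_pos]
            rintro ⟨i', b⟩ hx hinc
            unfold satInc at hinc
            rw [satSets_left] at hinc
            simp only [List.mem_cons, Prod.mk.injEq, List.not_mem_nil, or_false] at hinc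
            rcases hinc with ⟨rfl, h⟩ | ⟨rfl, h⟩
            · have : i' = i := Fin.ext h
              rw [this] at hx; exact h1 hx
            · have : i' = i := Fin.ext h
              rw [this] at hx; exact h2 hx
          have h4 : (0 : ℤ) ≤ ind ((i, true) ∈ S) 1 := ind_nonneg (by norm_num)
          have h5 : (0 : ℤ) ≤ ind ((i, false) ∈ S) 1 := ind_nonneg (by norm_num)
          rw [h3]; linarith
    have htot : ∑ i, (a i + u (Fin.castAdd φ.length i) - 1) + ∑ i, u (Fin.natAdd N i) ≤ 0 := by
      have e : ∑ i : Fin N, (a i + u (Fin.castAdd φ.length i) - 1)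
          = ∑ i, a i + ∑ i, u (Fin.castAdd φ.length i) - N := by
        rw [Finset.sum_sub_distrib, Finset.sum_add_distrib]
        simp
      rw [e]
      linarith
    have hs1 : 0 ≤ ∑ i, (a i + u (Fin.castAdd φ.length i) - 1) :=
      Finset.sum_nonneg (fun i _ => hau i)
    have hs2 : 0 ≤ ∑ i : Fin φ.length, u (Fin.natAdd N i) :=
      Finset.sum_nonneg (fun i _ => hu0 _)
    have h1 : ∀ i, a i + u (Fin.castAdd φ.length i) - 1 = 0 := by
      intro i
      have := (Finset.sum_eq_zero_iff_of_nonneg (fun i _ => hau i)).mp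
        (le_antisymm (by linarith) hs1) i (Finset.mem_univ i)
      exact this
    have h2 : ∀ i : Fin φ.length, u (Fin.natAdd N i) = 0 := by
      intro i
      have := (Finset.sum_eq_zero_iff_of_nonneg (fun i _ => hu0 (Fin.natAdd N i))).mp
        (le_antisymm (by linarith) hs2) i (Finset.mem_univ i)
      exact this
    refine ⟨fun i => if h : i < N then decide ((⟨i, h⟩, true) ∈ S) else false, ?_⟩
    intro C hC
    obtain ⟨j, hj, rfl⟩ := List.getElem_of_mem hC
    have h3 := h2 ⟨j, hj⟩
    have h4 : ¬ ∀ x ∈ S, ¬ satInc N φ (Fin.natAdd N ⟨j, hj⟩) x := by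
      intro h
      simp only [hu] at h3
      rw [ind_eq, if_pos h] at h3
      exact absurd h3 (by norm_num)
    push Not at h4
    obtain ⟨⟨i, b⟩, hx, hinc⟩ := h4
    unfold satInc at hinc
    rw [satSets_right] at hinc
    refine ⟨(b, i.val), hinc, ?_⟩
    show (if h : i.val < N then decide ((⟨i.val, h⟩, true) ∈ S) else false) = b
    rw [dif_pos i.isLt]
    cases b with
    | true => exact decide_eq_true hx
    | false =>
      refine decide_eq_false (fun h => ?_)
      have h5 := h1 i
      simp only [ha] at h5
      have h6 : ind ((i, true) ∈ S) 1 = (1 : ℤ) := by rw [ind_eq, if_pos h]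
      have h7 : ind ((i, false) ∈ S) 1 = (1 : ℤ) := by rw [ind_eq, if_pos hx]
      have h8 := hu0 (Fin.castAdd φ.length i)
      rw [h6, h7] at h5
      linarith

end Pool.Agent.Helper86.ZDom
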