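import Pool.Agent.Helper86.ZDomDominating
import Pool.Agent.Helper86.ZDomSat

/-!
The `P`-domination number of the reduction graph, and invariance under isomorphism.
-/

set_option autoImplicit false

namespace Pool.Agent.Helper86.ZDom

open Finset

theorem closedSum_comap {V W : Type*} [Fintype V] [Fintype W] (e : W ≃ V) (G : SimpleGraph V)
    (f : V → ℝ) (w : W) :
    closedSum (G.comap e) (fun w => f (e w)) w = closedSum G f (e w) := by
  classical
  unfold closedSum
  rw [Finset.sum_filter, Finset.sum_filter]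
  rw [← Equiv.sum_comp e (fun u => if u = e w ∨ G.Adj (e w) u then f u else 0)]
  refine Finset.sum_congr rfl (fun u _ => ?_)
  have h : (u = w ∨ (G.comap e).Adj w u) ↔ (e u = e w ∨ G.Adj (e w) (e u)) := by
    rw [e.injective.eq_iff]
    rfl
  by_cases h1 : u = w ∨ (G.comap e).Adj w u
  · rw [if_pos h1, if_pos (h.mp h1)]
  · rw [if_neg h1, if_neg (fun h2 => h1 (h.mpr h2))]

theorem gammaP_comap_le {V W : Type*} [Fintype V] [Fintype W] (P : Set ℝ) (e : W ≃ V)
    (G : SimpleGraph V) : gammaP P (G.comap e) ≤ gammaP P G := by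
  unfold gammaP
  refine le_iInf ?_
  rintro ⟨f, hf1, hf2⟩
  refine (iInf_le _ ⟨fun w => f (e w), fun w => hf1 _, fun w => ?_⟩).trans ?_
  · show ((∑ w, f (e w) : ℝ) : EReal) ≤ ((∑ v, f v : ℝ) : EReal)
    rw [Equiv.sum_comp e f]
  · rw [closedSum_comap]; exact hf2 _

theorem gammaP_comap {V W : Type*} [Fintype V] [Fintype W] (P : Set ℝ) (e : W ≃ V)
    (G : SimpleGraph V) : gammaP P (G.comap e) = gammaP P G := by
  refine le_antisymm (gammaP_comap_le P e G) ?_
  have h := gammaP_comap_le P e.symm (G.comap e)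
  have h2 : (G.comap e).comap e.symm = G := by
    ext a b
    simp
  rwa [h2] at h

theorem gammaP_rgraph_le_iff {U J : Type*} [Fintype U] [Fintype J] (P : Set ℝ)
    (h01 : {0, 1} ⊆ P) (hP : P ⊆ Set.range ((↑) : ℤ → ℝ)) (I : J → U → Prop) {m : ℕ} (hm : 0 < m)
    (hq : Fintype.card U + Fintype.card J ≤ 2 * m - 1) (t : ℤ) :
    gammaP P (rgraph I m) ≤ (((Fintype.card U + Fintype.card J + t : ℤ) : ℝ) : EReal) ↔
      ∃ S : Finset U, (S.card : ℤ) + unhit I S ≤ t := by
  classical
  constructor
  · intro h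
    refine exists_set I hm hq ?_
    by_contra hcon
    have h2 : (((Fintype.card U + Fintype.card J + t + 1 : ℤ) : ℝ) : EReal)
        ≤ gammaP P (rgraph I m) := by
      refine le_iInf ?_
      rintro ⟨f, hf1, hf2⟩
      choose g hg using fun v => hP (hf1 v)
      have hfg : f = fun v => (g v : ℝ) := funext (fun v => (hg v).symm)
      subst hfg
      show _ ≤ ((∑ v, (g v : ℝ) : ℝ) : EReal)
      rw [EReal.coe_le_coe_iff]
      have hdom : ∀ v, 1 ≤ nsum (rgraph I m) g v := by
        intro v
        have := hf2 v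
        rw [closedSum_cast] at this
        exact_mod_cast this
      have h3 : ¬ ∑ v, g v ≤ (Fintype.card U : ℤ) + Fintype.card J + t := fun h3 =>
        hcon ⟨g, hdom, h3⟩
      have h4 : (Fintype.card U : ℤ) + Fintype.card J + t + 1 ≤ ∑ v, g v := by omega
      exact_mod_cast h4
    have h3 := h2.trans h
    rw [EReal.coe_le_coe_iff] at h3
    push_cast at h3
    linarith
  · rintro ⟨S, hS⟩
    have hd := fS_dom I hm S
    have hs := fS_sum I hm S
    have hmem : ∀ v, ((fS I m S v : ℤ) : ℝ) ∈ P := by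
      intro v
      rcases fS_zero_one I m S v with h | h
      · rw [h]; exact h01 (by simp)
      · rw [h]; exact h01 (by simp)
    have hdom' : ∀ v, 1 ≤ closedSum (rgraph I m) (fun v => ((fS I m S v : ℤ) : ℝ)) v := by
      intro v
      rw [closedSum_cast]
      exact_mod_cast hd v
    refine (iInf_le _ ⟨fun v => ((fS I m S v : ℤ) : ℝ), hmem, hdom'⟩).trans ?_
    show ((∑ v, ((fS I m S v : ℤ) : ℝ) : ℝ) : EReal) ≤ _
    rw [EReal.coe_le_coe_iff]
    have h5 : ∑ v, fS I m S v ≤ (Fintype.card U : ℤ) + Fintype.card J + t := by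
      rw [hs]; linarith
    exact_mod_cast h5

end Pool.Agent.Helper86.ZDom
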