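import Pool.Agent.Helper86.ZDomCode
import Pool.Agent.Helper86.Poly.Fun2

/-!
NP-hardness of integer domination.
-/

set_option autoImplicit false

namespace Pool.Agent.Helper86.ZDom

open Finset PT Computability

theorem poly_adjb : PT.Poly (fun p : List (List (Bool × ℕ)) × Vtx × Vtx => adjb p.1 p.2.1 p.2.2) := by
  have hmix : PT.Poly (fun p : List (List (Bool × ℕ)) × ((ℕ × Bool) × ℕ) × (ℕ × ℕ × Bool) =>
      mixb p.1 p.2.1 p.2.2) := by
    unfold mixb
    have h1 : PT.Poly (fun p : List (List (Bool × ℕ)) × ((ℕ × Bool) × ℕ) × (ℕ × ℕ × Bool) => p.1) :=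
      PT.Poly.fst PT.Poly.id
    have h2 : PT.Poly (fun p : List (List (Bool × ℕ)) × ((ℕ × Bool) × ℕ) × (ℕ × ℕ × Bool) => p.2.1) :=
      PT.Poly.fst (PT.Poly.snd PT.Poly.id)
    have h3 : PT.Poly (fun p : List (List (Bool × ℕ)) × ((ℕ × Bool) × ℕ) × (ℕ × ℕ × Bool) => p.2.2) :=
      PT.Poly.snd (PT.Poly.snd PT.Poly.id)
    refine PT.Poly.and (PT.Poly.and (PT.Poly.isZero (PT.Poly.snd h2)) ?_)
      (PT.Poly.and (PT.Poly.isZero (PT.Poly.fst (PT.Poly.snd h3))) (PT.Poly.not (PT.Poly.snd (PT.Poly.snd h3))))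
    refine PT.Poly.any (l := fun p : List (List (Bool × ℕ)) × ((ℕ × Bool) × ℕ) × (ℕ × ℕ × Bool) =>
        p.1.getD p.2.2.1 [])
      (f := fun p l => decide (l.1 = p.2.1.1.2) && decide (l.2 = p.2.1.1.1))
      (PT.Poly.getD h1 (PT.Poly.fst h3) (PT.Poly.const [])) ?_
    exact PT.Poly.and
      (PT.Poly.beqBool (PT.Poly.fst (PT.Poly.snd PT.Poly.id)) (PT.Poly.snd (PT.Poly.fst (h2.comp (PT.Poly.fst PT.Poly.id)))))
      (PT.Poly.eqNat (PT.Poly.snd (PT.Poly.snd PT.Poly.id)) (PT.Poly.fst (PT.Poly.fst (h2.comp (PT.Poly.fst PT.Poly.id)))))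
  unfold adjb
  refine PT.Poly.sumCases (s := fun a : List (List (Bool × ℕ)) × Vtx × Vtx => a.2.1)
    (f := fun a p => Sum.elim
      (fun p' => (decide (p.1.1 = p'.1.1) && decide (p.1.2 = p'.1.2)) &&
        (decide (p.2 + 1 = p'.2) || decide (p'.2 + 1 = p.2)))
      (fun q => mixb a.1 p q) a.2.2)
    (g := fun a q => Sum.elim
      (fun p => mixb a.1 p q)
      (fun q' => decide (q.1 = q'.1) && !(decide (q.2.1 = q'.2.1))) a.2.2)
    (PT.Poly.fst (PT.Poly.snd PT.Poly.id)) ?_ ?_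
  · refine PT.Poly.sumCases
      (s := fun a : (List (List (Bool × ℕ)) × Vtx × Vtx) × ((ℕ × Bool) × ℕ) => a.1.2.2)
      (f := fun a p' => (decide (a.2.1.1 = p'.1.1) && decide (a.2.1.2 = p'.1.2)) &&
        (decide (a.2.2 + 1 = p'.2) || decide (p'.2 + 1 = a.2.2)))
      (g := fun a q => mixb a.1.1 a.2 q) (PT.Poly.snd (PT.Poly.snd (PT.Poly.fst PT.Poly.id))) ?_ ?_
    · have h1 : PT.Poly (fun p : ((List (List (Bool × ℕ)) × Vtx × Vtx) × ((ℕ × Bool) × ℕ)) ×
          ((ℕ × Bool) × ℕ) => p.1.2) := PT.Poly.snd (PT.Poly.fst PT.Poly.id)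
      have h2 : PT.Poly (fun p : ((List (List (Bool × ℕ)) × Vtx × Vtx) × ((ℕ × Bool) × ℕ)) ×
          ((ℕ × Bool) × ℕ) => p.2) := PT.Poly.snd PT.Poly.id
      exact PT.Poly.and (PT.Poly.and (PT.Poly.eqNat (PT.Poly.fst (PT.Poly.fst h1)) (PT.Poly.fst (PT.Poly.fst h2)))
        (PT.Poly.beqBool (PT.Poly.snd (PT.Poly.fst h1)) (PT.Poly.snd (PT.Poly.fst h2))))
        (PT.Poly.or (PT.Poly.eqNat (PT.Poly.succ (PT.Poly.snd h1)) (PT.Poly.snd h2))
          (PT.Poly.eqNat (PT.Poly.succ (PT.Poly.snd h2)) (PT.Poly.snd h1)))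
    · exact PT.Poly.comp hmix (PT.Poly.pair (PT.Poly.fst (PT.Poly.fst (PT.Poly.fst PT.Poly.id)))
        (PT.Poly.pair (PT.Poly.snd (PT.Poly.fst PT.Poly.id)) (PT.Poly.snd PT.Poly.id)))
  · refine PT.Poly.sumCases
      (s := fun a : (List (List (Bool × ℕ)) × Vtx × Vtx) × (ℕ × ℕ × Bool) => a.1.2.2)
      (f := fun a p => mixb a.1.1 p a.2)
      (g := fun a q' => decide (a.2.1 = q'.1) && !(decide (a.2.2.1 = q'.2.1)))
      (PT.Poly.snd (PT.Poly.snd (PT.Poly.fst PT.Poly.id))) ?_ ?_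
    · exact PT.Poly.comp hmix (PT.Poly.pair (PT.Poly.fst (PT.Poly.fst (PT.Poly.fst PT.Poly.id)))
        (PT.Poly.pair (PT.Poly.snd PT.Poly.id) (PT.Poly.snd (PT.Poly.fst PT.Poly.id))))
    · have h1 : PT.Poly (fun p : ((List (List (Bool × ℕ)) × Vtx × Vtx) × (ℕ × ℕ × Bool)) ×
          (ℕ × ℕ × Bool) => p.1.2) := PT.Poly.snd (PT.Poly.fst PT.Poly.id)
      have h2 : PT.Poly (fun p : ((List (List (Bool × ℕ)) × Vtx × Vtx) × (ℕ × ℕ × Bool)) ×
          (ℕ × ℕ × Bool) => p.2) := PT.Poly.snd PT.Poly.id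
      exact PT.Poly.and (PT.Poly.eqNat (PT.Poly.fst h1) (PT.Poly.fst h2))
        (PT.Poly.not (PT.Poly.eqNat (PT.Poly.fst (PT.Poly.snd h1)) (PT.Poly.fst (PT.Poly.snd h2))))

/-! ### The reduction -/

/-- The number of variables. -/
def nv (φ : List (List (Bool × ℕ))) : ℕ := (toT φ).nodes

theorem lt_nv {φ : List (List (Bool × ℕ))} : ∀ C ∈ φ, ∀ l ∈ C, l.2 < nv φ := by
  intro C hC l hl
  have h1 := nodes_mem_lt hC
  have h2 := nodes_mem_lt hl
  have h3 : (toT l).nodes = (toT l.1).nodes + l.2 + 1 := by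
    obtain ⟨b, i⟩ := l
    rw [nodes_pair, nodes_nat]
  unfold nv
  omega

/-- The parameter of the reduction. -/
def mv (φ : List (List (Bool × ℕ))) : ℕ := 3 * nv φ + φ.length + 1

/-- The vertices of the reduction graph. -/
def rverts (φ : List (List (Bool × ℕ))) : List Vtx := verts (nv φ) φ.length (mv φ)

/-- The adjacency matrix of the reduction graph. -/
def rbits (φ : List (List (Bool × ℕ))) : List Bool :=
  (rverts φ).flatMap fun x => (rverts φ).map fun y => adjb (satSets (nv φ) φ) x y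

/-- The string computed by the reduction. -/
def rstring (φ : List (List (Bool × ℕ))) : List Bool :=
  List.replicate (rverts φ).length true ++
    false :: (rbits φ ++ (false :: encodeNat (4 * nv φ + φ.length)))

theorem poly_rstring : PT.Poly rstring := by
  have hN : PT.Poly nv := PT.Poly.nodes PT.Poly.id
  have hL : PT.Poly (fun φ : List (List (Bool × ℕ)) => φ.length) := PT.Poly.length PT.Poly.id
  have hm : PT.Poly mv := PT.Poly.succ (PT.Poly.add (PT.Poly.mul (PT.Poly.const 3) hN) hL)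
  have hb : PT.Poly (fun _ : List (List (Bool × ℕ)) => [true, false]) := PT.Poly.const _
  have hv : PT.Poly rverts := by
    unfold rverts verts
    refine PT.Poly.append ?_ ?_
    · exact PT.Poly.map (f := fun _ x => Sum.inl x) (PT.Poly.product (PT.Poly.product (PT.Poly.range hN) hb)
        (PT.Poly.const _)) (PT.Poly.inl (PT.Poly.snd PT.Poly.id))
    · exact PT.Poly.map (f := fun _ x => Sum.inr x) (PT.Poly.product (PT.Poly.range (PT.Poly.add hN hL))
        (PT.Poly.product (PT.Poly.range hm) hb)) (PT.Poly.inr (PT.Poly.snd PT.Poly.id))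
  have hs : PT.Poly (fun φ => satSets (nv φ) φ) := by
    unfold satSets
    refine PT.Poly.append (PT.Poly.map (l := fun φ => List.range (nv φ))
      (f := fun _ i => [(true, i), (false, i)]) (PT.Poly.range hN) ?_) PT.Poly.id
    exact PT.Poly.cons (PT.Poly.pair (PT.Poly.const true) (PT.Poly.snd PT.Poly.id))
      (PT.Poly.cons (PT.Poly.pair (PT.Poly.const false) (PT.Poly.snd PT.Poly.id)) (PT.Poly.const []))
  have hbits : PT.Poly rbits := by
    unfold rbits
    refine PT.Poly.flatMap (l := rverts)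
      (f := fun φ x => (rverts φ).map fun y => adjb (satSets (nv φ) φ) x y) hv ?_
    refine PT.Poly.map (l := fun p : List (List (Bool × ℕ)) × Vtx => rverts p.1)
      (f := fun p y => adjb (satSets (nv p.1) p.1) p.2 y) (hv.comp (PT.Poly.fst PT.Poly.id)) ?_
    have hg : PT.Poly (fun p : (List (List (Bool × ℕ)) × Vtx) × Vtx =>
        (satSets (nv p.1.1) p.1.1, p.1.2, p.2)) :=
      PT.Poly.pair (hs.comp (PT.Poly.fst (PT.Poly.fst PT.Poly.id)))
        (PT.Poly.pair (PT.Poly.snd (PT.Poly.fst PT.Poly.id)) (PT.Poly.snd PT.Poly.id))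
    exact PT.Poly.comp (f := fun q : List (List (Bool × ℕ)) × Vtx × Vtx => adjb q.1 q.2.1 q.2.2)
      (g := fun p : (List (List (Bool × ℕ)) × Vtx) × Vtx =>
        (satSets (nv p.1.1) p.1.1, p.1.2, p.2)) poly_adjb hg
  unfold rstring
  exact PT.Poly.append (PT.Poly.replicate (PT.Poly.length hv) (PT.Poly.const true))
    (PT.Poly.cons (PT.Poly.const false) (PT.Poly.append hbits (PT.Poly.cons (PT.Poly.const false)
      (PT.Poly.encodeNat (PT.Poly.add (PT.Poly.mul (PT.Poly.const 4) hN) hL)))))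

/-- The numbering of the vertices. -/
noncomputable def vequiv (φ : List (List (Bool × ℕ))) :
    Fin (rverts φ).length ≃
      ((Fin (nv φ) × Bool) × Fin 3) ⊕ (Fin (nv φ + φ.length) × Fin (mv φ) × Bool) :=
  (exists_vequiv (nv φ) φ.length (mv φ)).choose

theorem vcode_vequiv (φ : List (List (Bool × ℕ))) (i : Fin (rverts φ).length) :
    vcode (vequiv φ i) = (rverts φ)[i] :=
  (exists_vequiv (nv φ) φ.length (mv φ)).choose_spec i

/-- The instance computed by the reduction. -/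
noncomputable def rinst (φ : List (List (Bool × ℕ))) : GraphInstance where
  n := (rverts φ).length
  G := (rgraph (satInc (nv φ) φ) (mv φ)).comap (vequiv φ)
  k := ((4 * nv φ + φ.length : ℕ) : ℤ)

theorem rstring_eq (φ : List (List (Bool × ℕ))) : rstring φ = instBits (rinst φ) := by
  classical
  unfold rstring instBits
  congr 1
  congr 1
  congr 1
  · unfold rbits adjBits
    rw [List.flatMap_def]
    congr 1
    have h1 : ∀ i j : Fin (rverts φ).length,
        decide (((rgraph (satInc (nv φ) φ) (mv φ)).comap (vequiv φ)).Adj i j)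
          = adjb (satSets (nv φ) φ) (rverts φ)[i] (rverts φ)[j] := by
      intro i j
      rw [← vcode_vequiv, ← vcode_vequiv]
      have h2 := adjb_iff φ (vequiv φ i) (vequiv φ j)
      by_cases h3 : (rgraph (satInc (nv φ) φ) (mv φ)).Adj (vequiv φ i) (vequiv φ j)
      · rw [h2.mpr h3]
        exact decide_eq_true h3
      · have h4 : adjb (satSets (nv φ) φ) (vcode (vequiv φ i)) (vcode (vequiv φ j)) = false := by
          rw [Bool.eq_false_iff]
          exact fun h => h3 (h2.mp h)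
        rw [h4]
        exact decide_eq_false h3
    refine List.ext_getElem (by simp [rinst]) (fun i hi hi' => ?_)
    rw [List.getElem_map, List.getElem_ofFn]
    refine List.ext_getElem (by simp [rinst]) (fun j hj hj' => ?_)
    rw [List.getElem_map, List.getElem_ofFn]
    rw [List.length_map] at hi hj
    exact (h1 ⟨i, hi⟩ ⟨j, hj⟩).symm

/-- **NP-hardness of the `P`-domination number** for sets `P` of integers containing `0, 1`. -/
theorem domProblem_npHard (P : Set ℝ) (h01 : {0, 1} ⊆ P) (hP : P ⊆ Set.range ((↑) : ℤ → ℝ)) :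
    NP.NPHard instEncoding (DomProblem P) := by
  refine NP.npHard_of_sat instEncoding (DomProblem P) rinst rstring poly_rstring rstring_eq
    (fun φ => ?_)
  rw [sat_iff_hit (nv φ) φ lt_nv]
  have hcU : Fintype.card (Fin (nv φ) × Bool) = 2 * nv φ := by
    simp [mul_comm]
  have hcJ : Fintype.card (Fin (nv φ + φ.length)) = nv φ + φ.length := by simp
  have h := gammaP_rgraph_le_iff P h01 hP (satInc (nv φ) φ) (m := mv φ) (by unfold mv; omega)
    (by rw [hcU, hcJ]; unfold mv; omega) (nv φ)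
  rw [← h]
  show _ ↔ gammaP P ((rgraph (satInc (nv φ) φ) (mv φ)).comap (vequiv φ)) ≤
    ((((4 * nv φ + φ.length : ℕ) : ℤ) : ℝ) : EReal)
  rw [gammaP_comap, hcU, hcJ]
  have e : (((2 * nv φ : ℕ) : ℤ) + ((nv φ + φ.length : ℕ) : ℤ) + (nv φ : ℤ))
      = ((4 * nv φ + φ.length : ℕ) : ℤ) := by
    push_cast; ring
  rw [e]

end Pool.Agent.Helper86.ZDom
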