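import Mathlib

/-!
Instances of integer domination as strings.
-/

set_option autoImplicit false

namespace Pool.Agent.Helper86.ZDom

open Computability

/-- An instance: a graph `G` with vertex set `{0, ..., n-1}` and an integer `k`. -/
structure GraphInstance where
  /-- the number of vertices -/
  n : ℕ
  /-- the graph -/
  G : SimpleGraph (Fin n)
  /-- the bound -/
  k : ℤ

open Classical in
/-- The adjacency matrix of a graph on `{0, ..., n-1}`, row by row, as a string of `n²` bits. -/
noncomputable def adjBits {n : ℕ} (G : SimpleGraph (Fin n)) : List Bool :=
  (List.ofFn fun i : Fin n => List.ofFn fun j : Fin n => decide (G.Adj i j)).flatten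

/-- The sign bit of `k` followed by the binary expansion of `|k|`. -/
def intBits (k : ℤ) : List Bool := decide (k < 0) :: encodeNat k.natAbs

/-- The string of an instance: `n` in unary, a zero, the adjacency matrix, and `k` in binary. -/
noncomputable def instBits (I : GraphInstance) : List Bool :=
  List.replicate I.n true ++ false :: (adjBits I.G ++ intBits I.k)

end Pool.Agent.Helper86.ZDom
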